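import Pool.Agent.NCG.Struct
import Pool.Agent.MP_7a7339_al.Coprime

set_option autoImplicit false

/-!
The partition of `G / Z(G)` given by the centralizers of the elements which are `p`-elements modulo
the centre.
-/

namespace Pool.Agent.NCG

open Subgroup Pool.Agent.MP_7a7339_al

section bridge

variable {G : Type*} [Group G] {p : ℕ}

/-- `y` is a noncentral element, a `p`-element modulo the centre. -/
def PZ (p : ℕ) (y : G) : Prop := y ∉ center G ∧ ∃ n, y ^ p ^ n ∈ center G

/-- `p`-elements modulo `Z(G)` of the centralizer of a noncentral element `x` are central in it. -/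
def Good (p : ℕ) (G : Type*) [Group G] : Prop :=
  ∀ x y c : G, x ∉ center G → PZ p y → y * x = x * y → c * x = x * c → c * y = y * c

/-- The common centralizer of all `p`-elements modulo the centre commuting with `x`. -/
def comp (p : ℕ) (x : G) : Subgroup G := centralizer {y : G | PZ p y ∧ y * x = x * y}

/-- B1 -/
theorem comp_eq (hg : Good p G) {x y : G} (hx : x ∉ center G) (hy : PZ p y)
    (hc : y * x = x * y) : comp p x = centralizer {y} := by
  ext u
  rw [comp, mem_centralizer_iff, mem_centralizer_singleton_iff]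
  constructor
  · intro h
    exact (h y ⟨hy, hc⟩).symm
  · intro hu w hw
    have h1 : w * y = y * w := hg x y w hx hy hc hw.2
    exact (hg y w u hy.1 hw.1 h1 hu).symm

/-- B2 -/
theorem comp_mul_center (x z : G) (hz : z ∈ center G) : comp p (x * z) = comp p x := by
  have hz' : ∀ g, g * z = z * g := mem_center_iff.1 hz
  have hset : {y : G | PZ p y ∧ y * (x * z) = x * z * y} = {y : G | PZ p y ∧ y * x = x * y} := by
    ext y
    have : y * (x * z) = x * z * y ↔ y * x = x * y := by
      rw [← mul_assoc, mul_assoc x z y, ← hz' y, ← mul_assoc, mul_left_inj]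
    exact and_congr_right fun _ => this
  rw [comp, comp, hset]

/-- The component of an element of `G / Z(G)`. -/
noncomputable def qcomp (p : ℕ) (q : G ⧸ center G) : Subgroup (G ⧸ center G) :=
  (comp p q.out).map (QuotientGroup.mk' (center G))

/-- B3 -/
theorem qcomp_mk (x : G) : qcomp p (QuotientGroup.mk' (center G) x)
    = (comp p x).map (QuotientGroup.mk' (center G)) := by
  obtain ⟨h, hh⟩ := QuotientGroup.mk_out_eq_mul (center G) x
  rw [qcomp]
  congr 1
  have e1 : (QuotientGroup.mk' (center G) x : G ⧸ center G).out = x * h := hh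
  rw [e1, comp_mul_center x h h.2]

/-- B4 -/
theorem mk_mem_qcomp (x u : G) : QuotientGroup.mk' (center G) u ∈
    qcomp p (QuotientGroup.mk' (center G) x) ↔ u ∈ comp p x := by
  rw [qcomp_mk, mem_map]
  constructor
  · rintro ⟨v, hv, hvu⟩
    have h1 : v⁻¹ * u ∈ center G := (QuotientGroup.eq (s := center G)).1 hvu
    have h2 : v⁻¹ * u ∈ comp p x := center_le_centralizer _ h1
    have := mul_mem hv h2
    rwa [mul_inv_cancel_left] at this
  · intro h
    exact ⟨u, h, rfl⟩

private theorem BE_conj (h : G) {w : G} (hw : PZ p w) : PZ p (h * w * h⁻¹) := by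
  obtain ⟨h1, n, h2⟩ := hw
  refine ⟨fun h3 => h1 ?_, n, ?_⟩
  · have := (inferInstance : (center G).Normal).conj_mem _ h3 h⁻¹
    have e : h⁻¹ * (h * w * h⁻¹) * h⁻¹⁻¹ = w := by group
    rwa [e] at this
  · rw [conj_pow]
    exact (inferInstance : (center G).Normal).conj_mem _ h2 h

private theorem BE_card [Finite G] (K : Subgroup G) (h : center G ≤ K) :
    Nat.card (center G) * Nat.card (K.map (QuotientGroup.mk' (center G))) = Nat.card K := by
  have h1 : (K.map (QuotientGroup.mk' (center G))).index = K.index := by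
    rw [← index_comap_of_surjective _ (QuotientGroup.mk'_surjective (center G)), comap_map_eq,
      QuotientGroup.ker_mk', sup_eq_left.2 h]
  have e1 := K.card_mul_index
  have e2 := (K.map (QuotientGroup.mk' (center G))).card_mul_index
  have e3 := card_eq_card_quotient_mul_card_subgroup (center G)
  have hpos : 0 < K.index := Nat.pos_of_ne_zero index_ne_zero_of_finite
  refine Nat.eq_of_mul_eq_mul_right hpos ?_
  rw [e1, mul_assoc, ← h1, e2, e3, mul_comm]

/-- B5: `G / Z(G)` has the partition.  (`K = qcomp p`; for `q = mk x`, `x` noncentral, choose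
`y` by `hd`; `comp p x = C(y)` by B1.) -/
theorem exists_part [Finite G] [Fact p.Prime] (hg : Good p G)
    (hd : ∀ x : G, x ∉ center G → ∃ y, PZ p y ∧ y * x = x * y) :
    ∃ P : Part p (G ⧸ center G), ∀ q : G ⧸ center G, q ≠ 1 → ∃ y : G, y ∉ center G ∧
      Nat.card (center G) * Nat.card (P.K q) = Nat.card (centralizer {y} : Subgroup G) := by
  classical
  have hne : ∀ x : G, QuotientGroup.mk' (center G) x ≠ 1 ↔ x ∉ center G := fun x => by
    rw [Ne, QuotientGroup.mk'_apply, QuotientGroup.eq_one_iff]
  refine ⟨⟨qcomp p, ?_, ?_, ?_, ?_, ?_⟩, ?_⟩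
  · intro q
    obtain ⟨x, rfl⟩ := QuotientGroup.mk'_surjective _ q
    rw [mk_mem_qcomp, comp, mem_centralizer_iff]
    exact fun y hy => hy.2
  · intro q r hr hq hqr
    obtain ⟨x, rfl⟩ := QuotientGroup.mk'_surjective _ q
    obtain ⟨v, rfl⟩ := QuotientGroup.mk'_surjective _ r
    rw [mk_mem_qcomp] at hqr
    rw [hne] at hr hq
    obtain ⟨w, hw, hwv⟩ := hd v hr
    rw [comp_eq hg hr hw hwv, mem_centralizer_singleton_iff] at hqr
    rw [qcomp_mk, qcomp_mk, comp_eq hg hr hw hwv, comp_eq hg hq hw hqr.symm]
  · intro g q hq u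
    obtain ⟨x, rfl⟩ := QuotientGroup.mk'_surjective _ q
    obtain ⟨h, rfl⟩ := QuotientGroup.mk'_surjective _ g
    obtain ⟨v, rfl⟩ := QuotientGroup.mk'_surjective _ u
    rw [← map_mul, ← map_inv, ← map_mul, ← map_mul, ← map_mul, mk_mem_qcomp, mk_mem_qcomp, comp,
      comp, mem_centralizer_iff, mem_centralizer_iff]
    constructor
    · intro hv w hw
      have := hv (h * w * h⁻¹) ⟨BE_conj h hw.1, by
        have e := hw.2
        calc h * w * h⁻¹ * (h * x * h⁻¹) = h * (w * x) * h⁻¹ := by group
          _ = h * (x * w) * h⁻¹ := by rw [e]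
          _ = h * x * h⁻¹ * (h * w * h⁻¹) := by group⟩
      calc w * (h⁻¹ * v * h) = h⁻¹ * (h * w * h⁻¹ * v) * h := by group
        _ = h⁻¹ * (v * (h * w * h⁻¹)) * h := by rw [this]
        _ = h⁻¹ * v * h * w := by group
    · intro hv w hw
      have := hv (h⁻¹ * w * h) ⟨by simpa using BE_conj h⁻¹ hw.1, by
        have e := hw.2
        calc h⁻¹ * w * h * x = h⁻¹ * (w * (h * x * h⁻¹)) * h := by group
          _ = h⁻¹ * (h * x * h⁻¹ * w) * h := by rw [e]
          _ = x * (h⁻¹ * w * h) := by group⟩
      calc w * v = h * (h⁻¹ * w * h * (h⁻¹ * v * h)) * h⁻¹ := by group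
        _ = h * (h⁻¹ * v * h * (h⁻¹ * w * h)) * h⁻¹ := by rw [this]
        _ = v * w := by group
  · rintro q hq ⟨n, hn⟩ u hu
    obtain ⟨x, rfl⟩ := QuotientGroup.mk'_surjective _ q
    obtain ⟨v, rfl⟩ := QuotientGroup.mk'_surjective _ u
    rw [mk_mem_qcomp, comp, mem_centralizer_iff] at hu
    rw [hne] at hq
    have h1 : x ^ p ^ n ∈ center G := by
      rw [← map_pow, QuotientGroup.mk'_apply, QuotientGroup.eq_one_iff] at hn
      exact hn
    rw [← map_mul, ← map_mul, (hu x ⟨⟨hq, n, h1⟩, rfl⟩)]
  · intro q hq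
    obtain ⟨x, rfl⟩ := QuotientGroup.mk'_surjective _ q
    rw [hne] at hq
    obtain ⟨w, hw, hwx⟩ := hd x hq
    have hmem : QuotientGroup.mk' (center G) w ∈ qcomp p (QuotientGroup.mk' (center G) x) := by
      rw [mk_mem_qcomp, comp_eq hg hq hw hwx, mem_centralizer_singleton_iff]
    obtain ⟨n, hn⟩ := hw.2
    have h1 : (⟨QuotientGroup.mk' (center G) w, hmem⟩ :
        qcomp p (QuotientGroup.mk' (center G) x)) ^ p ^ n = 1 := by
      refine Subtype.ext ?_
      change (QuotientGroup.mk' (center G) w) ^ p ^ n = 1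
      rw [← map_pow, QuotientGroup.mk'_apply, QuotientGroup.eq_one_iff]
      exact hn
    obtain ⟨i, -, hi⟩ := (Nat.dvd_prime_pow Fact.out).1 (orderOf_dvd_of_pow_eq_one h1)
    have h2 : i ≠ 0 := by
      rintro rfl
      rw [pow_zero, orderOf_eq_one_iff] at hi
      exact (hne w).2 hw.1 (congrArg Subtype.val hi)
    refine dvd_trans (dvd_pow_self p h2) ?_
    rw [← hi]
    exact orderOf_dvd_natCard _
  · intro q hq
    obtain ⟨x, rfl⟩ := QuotientGroup.mk'_surjective _ q
    rw [hne] at hq
    obtain ⟨w, hw, hwx⟩ := hd x hq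
    refine ⟨w, hw.1, ?_⟩
    change Nat.card (center G) * Nat.card (qcomp p (QuotientGroup.mk' (center G) x)) = _
    rw [qcomp_mk, comp_eq hg hq hw hwx]
    exact BE_card _ (center_le_centralizer _)

/-- B6: an element of order `p` modulo the centre in a centralizer. -/
theorem exists_PZ [Finite G] [Fact p.Prime] {x : G} {n : ℕ} (hp : p ∣ n)
    (h : Nat.card (centralizer {x} : Subgroup G) = Nat.card (center G) * n) :
    ∃ y, PZ p y ∧ y * x = x * y := by
  have h1 : Nat.card ((centralizer {x} : Subgroup G).map (QuotientGroup.mk' (center G))) = n := by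
    have := BE_card (centralizer {x} : Subgroup G) (center_le_centralizer _)
    rw [h] at this
    exact Nat.eq_of_mul_eq_mul_left Nat.card_pos this
  obtain ⟨⟨q, hq⟩, hq1⟩ := exists_prime_orderOf_dvd_card'
    (G := (centralizer {x} : Subgroup G).map (QuotientGroup.mk' (center G))) p (h1 ▸ hp)
  obtain ⟨y, hy, rfl⟩ := mem_map.1 hq
  rw [← orderOf_coe] at hq1
  change orderOf (QuotientGroup.mk' (center G) y) = p at hq1
  refine ⟨y, ⟨fun h2 => ?_, 1, ?_⟩, mem_centralizer_singleton_iff.1 hy⟩
  · rw [(show QuotientGroup.mk' (center G) y = 1 by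
      rw [QuotientGroup.mk'_apply, QuotientGroup.eq_one_iff]; exact h2), orderOf_one] at hq1
    exact (Fact.out : p.Prime).one_lt.ne hq1
  · rw [pow_one, ← QuotientGroup.eq_one_iff, QuotientGroup.mk_pow]
    rw [← hq1]
    exact pow_orderOf_eq_one (QuotientGroup.mk' (center G) y)

/-- B7: if `p` does not divide `|C : Z(C)|`, `C` the centralizer of `x`, the elements of `C` which
are `p`-elements modulo `Z(G)` are central in `C`. -/
theorem central_of_not_dvd [Finite G] [Fact p.Prime] {x y c : G}
    (h : ¬ p ∣ (center (centralizer {x} : Subgroup G)).index)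
    (hy : PZ p y) (hyx : y * x = x * y) (hcx : c * x = x * c) : c * y = y * c := by
  have hyC : y ∈ (centralizer {x} : Subgroup G) := mem_centralizer_singleton_iff.2 hyx
  have hcC : c ∈ (centralizer {x} : Subgroup G) := mem_centralizer_singleton_iff.2 hcx
  obtain ⟨n, hn⟩ := hy.2
  have hyn : (⟨y, hyC⟩ : (centralizer {x} : Subgroup G)) ^ p ^ n ∈
      center (centralizer {x} : Subgroup G) := by
    rw [mem_center_iff]
    intro g
    exact Subtype.ext (mem_center_iff.1 hn g)
  have h1 : (QuotientGroup.mk' (center (centralizer {x} : Subgroup G)) ⟨y, hyC⟩) ^ p ^ n = 1 := by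
    rw [← map_pow, QuotientGroup.mk'_apply, QuotientGroup.eq_one_iff]
    exact hyn
  obtain ⟨i, -, hi⟩ := (Nat.dvd_prime_pow Fact.out).1 (orderOf_dvd_of_pow_eq_one h1)
  have h2 : orderOf (QuotientGroup.mk' (center (centralizer {x} : Subgroup G)) ⟨y, hyC⟩) ∣
      (center (centralizer {x} : Subgroup G)).index := orderOf_dvd_natCard _
  have h3 : i = 0 := by
    by_contra h4
    exact h (dvd_trans (dvd_pow_self p h4) (hi ▸ h2))
  rw [h3, pow_zero, orderOf_eq_one_iff, QuotientGroup.mk'_apply, QuotientGroup.eq_one_iff] at hi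
  exact congrArg Subtype.val (mem_center_iff.1 hi ⟨c, hcC⟩)

end bridge

section induct

universe u v

variable {G : Type u} {H : Type v} [Group G] [Group H]

private def IA_eqv (x : NC G) : NC (centralizer {(x : G)} : Subgroup G) ≃
    {y : NC G // Commute (x : G) (y : G) ∧ ∃ d : NC G, Commute (x : G) (d : G) ∧
      ¬ Commute (y : G) (d : G)} where
  toFun c := ⟨⟨c.1.1, fun h => c.2 (mem_center_iff.2 fun g =>
    Subtype.ext (mem_center_iff.1 h g))⟩, by
      refine ⟨(mem_centralizer_singleton_iff.1 c.1.2).symm, ?_⟩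
      have h := c.2
      rw [mem_center_iff] at h
      push Not at h
      obtain ⟨d, hd⟩ := h
      have hd' : (d : G) * c.1.1 ≠ c.1.1 * d := fun h => hd (Subtype.ext h)
      refine ⟨⟨d.1, fun h => hd' (mem_center_iff.1 h _).symm⟩,
        (mem_centralizer_singleton_iff.1 d.2).symm, fun h => hd' h.symm⟩⟩
  invFun y := ⟨⟨y.1.1, mem_centralizer_singleton_iff.2 y.2.1.symm⟩, fun h => by
    obtain ⟨d, h1, h2⟩ := y.2.2
    have := mem_center_iff.1 h ⟨d.1, mem_centralizer_singleton_iff.2 h1.symm⟩
    exact h2 (congrArg Subtype.val this).symm⟩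
  left_inv _ := rfl
  right_inv _ := rfl

/-- I1: the restriction to centralizers.  (A noncentral element of `C = C_G(x)` is noncentral in
`G` and does not commute with some `c ∈ C`, which is also noncentral.) -/
theorem exists_restrict (E : CommEquiv G H) (x : NC G) :
    Nonempty (CommEquiv (centralizer {(x : G)} : Subgroup G)
      (centralizer {(E.e x : H)} : Subgroup H)) := by
  have hQ : ∀ y : NC G, (Commute (x : G) (y : G) ∧ ∃ d : NC G, Commute (x : G) (d : G) ∧
      ¬ Commute (y : G) (d : G)) ↔ (Commute (E.e x : H) (E.e y : H) ∧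
      ∃ d : NC H, Commute (E.e x : H) (d : H) ∧ ¬ Commute (E.e y : H) (d : H)) := by
    intro y
    rw [E.comm x y]
    refine and_congr_right fun _ => ?_
    constructor
    · rintro ⟨d, h1, h2⟩
      exact ⟨E.e d, (E.comm x d).1 h1, fun h3 => h2 ((E.comm y d).2 h3)⟩
    · rintro ⟨d, h1, h2⟩
      obtain ⟨d, rfl⟩ := E.e.surjective d
      exact ⟨d, (E.comm x d).2 h1, fun h3 => h2 ((E.comm y d).1 h3)⟩
  refine ⟨⟨(IA_eqv x).trans ((E.e.subtypeEquiv hQ).trans (IA_eqv (E.e x)).symm), ?_⟩⟩
  intro c d
  have h1 : ∀ c : NC (centralizer {(x : G)} : Subgroup G),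
      (((IA_eqv x).trans ((E.e.subtypeEquiv hQ).trans (IA_eqv (E.e x)).symm) c).1 : H) =
        (E.e ((IA_eqv x) c).1 : H) := fun c => rfl
  have h2 := E.comm ((IA_eqv x) c).1 ((IA_eqv x) d).1
  constructor
  · intro h
    refine Subtype.ext ?_
    change (_ : H) * _ = _ * _
    rw [h1, h1]
    exact h2.1 (congrArg Subtype.val h)
  · intro h
    refine Subtype.ext (h2.2 ?_)
    have h3 := congrArg Subtype.val h
    exact h3

private theorem IB_card {G : Type*} [Group G] (x : NC G) :
    Nat.card (cz {y : NC G | Commute (x : G) (y : G)}) =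
      Nat.card (center (centralizer {(x : G)} : Subgroup G)) := by
  refine Nat.card_congr
    { toFun := fun g => ⟨⟨g.1, ?_⟩, ?_⟩
      invFun := fun g => ⟨g.1.1, ?_⟩
      left_inv := fun _ => rfl
      right_inv := fun _ => rfl }
  · exact mem_centralizer_singleton_iff.2 ((mem_cz.1 g.2) x (Commute.refl (x : G))).symm
  · rw [mem_center_iff]
    intro h
    refine Subtype.ext ?_
    change (h : G) * g = g * h
    by_cases hc : (h : G) ∈ center G
    · exact (mem_center_iff.1 hc _).symm
    · exact (mem_cz.1 g.2) ⟨h, hc⟩ (mem_centralizer_singleton_iff.1 h.2).symm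
  · rw [mem_cz]
    intro y hy
    have := mem_center_iff.1 g.2 ⟨y.1, mem_centralizer_singleton_iff.2 (Commute.eq hy).symm⟩
    exact congrArg Subtype.val this

/-- I2: `CommEquiv.card_add` for `S = {y : NC G | y` commutes with `x}`: `cz S` is the centre of
`C_G(x)`, mapped to `G`. -/
theorem card_center_centralizer [Finite G] [Finite H] (E : CommEquiv G H) (x : NC G) :
    Nat.card (center (centralizer {(x : G)} : Subgroup G)) + Nat.card (center H)
      = Nat.card (center (centralizer {(E.e x : H)} : Subgroup H)) + Nat.card (center G) := by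
  have h1 := E.card_add {y : NC G | Commute (x : G) (y : G)}
  have h2 : E.e '' {y : NC G | Commute (x : G) (y : G)} =
      {y : NC H | Commute (E.e x : H) (y : H)} := by
    ext y
    constructor
    · rintro ⟨z, hz, rfl⟩
      exact (E.comm x z).1 hz
    · intro hy
      obtain ⟨z, rfl⟩ := E.e.surjective y
      exact ⟨z, (E.comm x z).2 hy, rfl⟩
  rw [h2, IB_card, IB_card] at h1
  exact h1

/-- I3 -/
theorem index_center_centralizer_dvd [Finite H] (x : H) :
    (center (centralizer {x} : Subgroup H)).index ∣ (center H).index := by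
  have h1 : (center H).subgroupOf (centralizer {x}) ≤ center (centralizer {x} : Subgroup H) := by
    intro g hg
    rw [mem_center_iff]
    intro h
    exact Subtype.ext (mem_center_iff.1 (mem_subgroupOf.1 hg) h)
  exact dvd_trans (index_dvd_of_le h1) (relIndex_dvd_index_of_normal (center H) (centralizer {x}))

/-- I4: orders of centralizers in `H` when `|H : Z(H)|` is a power of `p`. -/
theorem exists_exponent [Finite H] {p k : ℕ} (hp : p.Prime) (hk : (center H).index = p ^ k)
    (x : NC H) : ∃ i, 1 ≤ i ∧ i < k ∧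
      Nat.card (centralizer {(x : H)} : Subgroup H) = Nat.card (center H) * p ^ i := by
  obtain ⟨i, h1, h2, h3, -⟩ := exponent_of_noncentral hp hk x
  exact ⟨i, h1, h2, h3⟩

/-- divide the transfer identity by the gcd -/
private theorem ID_ty {a0 b0 e a b p n i : ℕ} (he : 0 < e) (ha : a0 = e * a) (hb : b0 = e * b)
    (h : a0 * n + b0 = b0 * p ^ i + a0) : Ty a b p n i := by
  unfold Ty
  apply Nat.eq_of_mul_eq_mul_left he
  subst ha hb
  linarith

/-- I5: for groups with isomorphic non-commuting graphs, `|H : Z(H)| = p ^ k`,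
`|Z(G)| < |Z(H)|`: `p` does not divide `|G : Z(G)|`.  (Strong induction on `n`.  By I1 - I3 the
induction hypothesis applies to the centralizers, so `Good p G` by B7.  With
`e = gcd (|Z(G)|, |Z(H)|)`, `a = |Z(G)| / e`, `b = |Z(H)| / e`: `Ty a b p |G : Z(G)| k`
(`CommEquiv.card_group`) and `|C_G(x)| = |Z(G)| n` with `Ty a b p n i` (`CommEquiv.card_centralizer`,
I4).  If `p` divides `|G : Z(G)|` then `ty_dvd_sub`, `ty_dvd`, B6, B5 and `Sized.false`.) -/
theorem not_dvd_index_of_lt {p : ℕ} [Fact p.Prime] :
    ∀ (n : ℕ) (G : Type u) (H : Type v) [Group G] [Group H] [Finite G] [Finite H],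
      Nat.card G = n → CommEquiv G H → ∀ k : ℕ, (center H).index = p ^ k →
      Nat.card (center G) < Nat.card (center H) → ¬ p ∣ (center G).index := by
  intro n
  induction n using Nat.strong_induction_on with
  | _ n ih =>
  intro G H _ _ _ _ hn E k hk hlt hdvd
  have hp : p.Prime := Fact.out
  -- the induction hypothesis for centralizers
  have hcent : ∀ x : NC G, ¬ p ∣ (center (centralizer {(x : G)} : Subgroup G)).index := by
    intro x
    obtain ⟨E'⟩ := exists_restrict E x
    have h1 := index_center_centralizer_dvd ((E.e x : H))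
    rw [hk] at h1
    obtain ⟨j, -, hj⟩ := (Nat.dvd_prime_pow hp).1 h1
    have h2 := card_center_centralizer E x
    refine ih (Nat.card (centralizer {(x : G)} : Subgroup G)) ?_
      (centralizer {(x : G)} : Subgroup G) (centralizer {(E.e x : H)} : Subgroup H) rfl E' j hj
      (by omega)
    rw [← hn]
    have h3 := index_centralizer_ge_two x
    have h4 := (centralizer {(x : G)} : Subgroup G).card_mul_index
    have h5 : 0 < Nat.card (centralizer {(x : G)} : Subgroup G) := Nat.card_pos
    nlinarith
  have hgood : Good p G := fun x y c hx hy hyx hcx =>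
    central_of_not_dvd (hcent ⟨x, hx⟩) hy hyx hcx
  -- numbers
  obtain ⟨e, a, b, he, ha, hb, hcop, -⟩ :=
    exists_reduced (Nat.card (center G)) (Nat.card (center H)) card_center_pos
  have ha0 : 0 < a := by
    rcases Nat.eq_zero_or_pos a with h | h
    · rw [h] at ha
      have := card_center_pos (G := G)
      omega
    · exact h
  have hab : a < b := by
    rw [ha, hb] at hlt
    exact Nat.lt_of_mul_lt_mul_left hlt
  have hN : Nat.card G = Nat.card (center G) * (center G).index := (card_mul_index _).symm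
  have hN' : Nat.card H = Nat.card (center H) * p ^ k := by
    rw [← hk]; exact (card_mul_index _).symm
  have hX : Ty a b p (center G).index k := by
    apply ID_ty he ha hb
    have := E.card_group
    rw [hN, hN'] at this
    exact this
  have hk1 : 1 ≤ k := by
    rcases Nat.eq_zero_or_pos k with h | h
    · exfalso
      rw [h] at hX
      unfold Ty at hX
      have h1 : a * (center G).index = a * 1 := by
        rw [pow_zero] at hX
        omega
      have h2 := Nat.eq_of_mul_eq_mul_left ha0 h1
      rw [h2] at hdvd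
      exact hp.one_lt.ne' (Nat.dvd_one.1 hdvd)
    · exact h
  have hd : p ∣ b - a := ty_dvd_sub hab hk1 hX hdvd
  have hcz : ∀ x : NC G, ∀ m, Nat.card (centralizer {(x : G)} : Subgroup G)
      = Nat.card (center G) * m → ∃ i, 1 ≤ i ∧ i < k ∧ Ty a b p m i := by
    intro x m hm
    obtain ⟨i, hi1, hi2, hi3⟩ := exists_exponent hp hk (E.e x)
    refine ⟨i, hi1, hi2, ?_⟩
    apply ID_ty he ha hb
    have := E.card_centralizer x
    rw [hm, hi3] at this
    exact this
  have hex : ∀ x : G, x ∉ center G → ∃ y, PZ p y ∧ y * x = x * y := by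
    intro x hx
    obtain ⟨m, hm⟩ : Nat.card (center G) ∣ Nat.card (centralizer {x} : Subgroup G) :=
      Subgroup.card_dvd_of_le (Subgroup.center_le_centralizer _)
    obtain ⟨i, hi1, hi2, hi3⟩ := hcz ⟨x, hx⟩ m hm
    exact exists_PZ (ty_dvd hp hab hcop hd hi1 hi3) hm
  obtain ⟨P, hP⟩ := exists_part hgood hex
  have hcardq : Nat.card (G ⧸ center G) = (center G).index := rfl
  have hs : Sized P a b k :=
    { ha := ha0
      hab := hab
      hc := hcop
      hX := by rw [hcardq]; exact hX
      hK := by
        intro q hq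
        obtain ⟨y, hy, hyc⟩ := hP q hq
        exact hcz ⟨y, hy⟩ _ hyc.symm
      hpX := by rw [hcardq]; exact hdvd
      hk := hk1 }
  exact hs.false

end induct

end Pool.Agent.NCG
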