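import Pool.Agent.NCG.Part

set_option autoImplicit false

/-!
Counting lemmas for conjugacy classes and components.
-/

namespace Pool.Agent.NCG

open Subgroup

variable {p : ℕ} {X : Type*} [Group X]

/-- C1: a union of conjugacy classes whose elements all have centralizers of order `c`.  (`κ` = number
of classes, each has `|X| / c` elements; or Burnside for the conjugation action on `Ω`,
`MulAction.sum_card_fixedBy_eq_card_orbits_mul_card_group`.) -/
theorem exists_classes [Finite X] (Ω : Set X) (hΩ : ∀ y ∈ Ω, ∀ g : X, g * y * g⁻¹ ∈ Ω) (c : ℕ)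
    (hc : ∀ y ∈ Ω, Nat.card (centralizer {y} : Subgroup X) = c) :
    ∃ κ, Nat.card Ω * c = κ * Nat.card X := by
  classical
  let act : MulAction X Ω :=
    { smul := fun g y => ⟨g * y.1 * g⁻¹, hΩ y.1 y.2 g⟩
      one_smul := fun y => Subtype.ext (by
        show 1 * y.1 * (1 : X)⁻¹ = y.1
        rw [one_mul, inv_one, mul_one])
      mul_smul := fun g h y => Subtype.ext (by
        show g * h * y.1 * (g * h)⁻¹ = g * (h * y.1 * h⁻¹) * g⁻¹
        simp only [mul_inv_rev, mul_assoc]) }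
  have hsm : ∀ (g : X) (y : Ω), ((g • y : Ω) : X) = g * y.1 * g⁻¹ := fun _ _ => rfl
  have e1 : Nat.card (Σ g : X, MulAction.fixedBy Ω g) =
      Nat.card (MulAction.orbitRel.Quotient X Ω) * Nat.card X := by
    rw [Nat.card_congr (MulAction.sigmaFixedByEquivOrbitsProdGroup X Ω), Nat.card_prod]
  have e2 : (Σ g : X, MulAction.fixedBy Ω g) ≃ (Σ y : Ω, (centralizer {y.1} : Subgroup X)) :=
    { toFun := fun z => ⟨z.2.1, ⟨z.1, by
        rw [mem_centralizer_singleton_iff]
        have h1 := congrArg Subtype.val z.2.2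
        rw [hsm] at h1
        exact (mul_inv_eq_iff_eq_mul.1 h1)⟩⟩
      invFun := fun z => ⟨z.2.1, ⟨z.1, Subtype.ext (by
        rw [hsm, mul_inv_eq_iff_eq_mul]
        exact mem_centralizer_singleton_iff.1 z.2.2)⟩⟩
      left_inv := fun z => rfl
      right_inv := fun z => rfl }
  have hfin : Fintype Ω := Fintype.ofFinite _
  have e3 : Nat.card (Σ y : Ω, (centralizer {y.1} : Subgroup X)) = Nat.card Ω * c := by
    rw [Nat.card_sigma, Finset.sum_congr rfl fun y _ => hc y.1 y.2, Finset.sum_const,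
      Finset.card_univ, smul_eq_mul, Nat.card_eq_fintype_card]
  exact ⟨Nat.card (MulAction.orbitRel.Quotient X Ω), by rw [← e3, ← Nat.card_congr e2, e1]⟩

/-- C2: double counting. -/
theorem double_count [Finite X] (A B : Set X) (R : X → X → Prop) (m n : ℕ)
    (h1 : ∀ x ∈ A, Nat.card {y : X // y ∈ B ∧ R x y} = m)
    (h2 : ∀ y ∈ B, Nat.card {x : X // x ∈ A ∧ R x y} = n) :
    Nat.card A * m = Nat.card B * n := by
  classical
  have hA : Fintype A := Fintype.ofFinite _
  have hB : Fintype B := Fintype.ofFinite _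
  have e : (Σ x : A, {y : X // y ∈ B ∧ R x.1 y}) ≃ (Σ y : B, {x : X // x ∈ A ∧ R x y.1}) :=
    { toFun := fun z => ⟨⟨z.2.1, z.2.2.1⟩, ⟨z.1.1, z.1.2, z.2.2.2⟩⟩
      invFun := fun z => ⟨⟨z.2.1, z.2.2.1⟩, ⟨z.1.1, z.1.2, z.2.2.2⟩⟩
      left_inv := fun z => rfl
      right_inv := fun z => rfl }
  have e1 : Nat.card (Σ x : A, {y : X // y ∈ B ∧ R x.1 y}) = Nat.card A * m := by
    rw [Nat.card_sigma, Finset.sum_congr rfl fun x _ => h1 x.1 x.2, Finset.sum_const,
      Finset.card_univ, smul_eq_mul, Nat.card_eq_fintype_card]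
  have e2 : Nat.card (Σ y : B, {x : X // x ∈ A ∧ R x y.1}) = Nat.card B * n := by
    rw [Nat.card_sigma, Finset.sum_congr rfl fun y _ => h2 y.1 y.2, Finset.sum_const,
      Finset.card_univ, smul_eq_mul, Nat.card_eq_fintype_card]
  rw [← e1, ← e2]
  exact Nat.card_congr e

private theorem CC_ne [Finite X] (Q : Subgroup X) :
    Nat.card {x : X // x ≠ 1 ∧ x ∈ Q} = Nat.card Q - 1 := by
  have h1 : Nat.card {x : X // x ≠ 1 ∧ x ∈ Q} = ((Q : Set X) \ {1}).ncard := by
    rw [← Nat.card_coe_set_eq]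
    exact Nat.card_congr (Equiv.subtypeEquivRight fun x => and_comm)
  have h2 : Nat.card Q = (Q : Set X).ncard := (Nat.card_coe_set_eq (Q : Set X))
  rw [h1, h2, Set.ncard_sdiff_singleton_of_mem Q.one_mem]

/-- C3: the nontrivial `p`-elements of a component (`Part.exists_pPart`, minus the identity). -/
theorem Part.card_pEl (P : Part p X) [Finite X] [Fact p.Prime] {x : X} (hx : x ≠ 1) :
    Nat.card {y : X // PEl p y ∧ y ∈ P.K x} = p ^ (Nat.card (P.K x)).factorization p - 1 := by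
  obtain ⟨Q, hQ, hQc⟩ := P.exists_pPart hx
  rw [← hQc, ← CC_ne Q]
  refine Nat.card_congr (Equiv.subtypeEquivRight fun y => ?_)
  rw [hQ]
  constructor
  · rintro ⟨⟨h1, h2⟩, h3⟩
    exact ⟨h1, h3, h2⟩
  · rintro ⟨h1, h3, h2⟩
    exact ⟨⟨h1, h2⟩, h3⟩

/-- C4 -/
theorem Part.card_ne_one (P : Part p X) [Finite X] {y : X} (hy : y ≠ 1) :
    Nat.card {x : X // x ≠ 1 ∧ x ∈ P.K y} = Nat.card (P.K y) - 1 := by
  exact CC_ne (P.K y)

/-- `x` lies in a conjugate of the component of `z`. -/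
def Part.T0 (P : Part p X) (z x : X) : Prop := ∃ g : X, g⁻¹ * x * g ∈ P.K z

/-- C5 -/
theorem Part.T0_congr (P : Part p X) {x y z : X} (hz : z ≠ 1) (hx : x ≠ 1) (hy : y ≠ 1)
    (h : y ∈ P.K x) : P.T0 z x ↔ P.T0 z y := by
  have key : ∀ a b : X, a ≠ 1 → b ≠ 1 → b ∈ P.K a → P.T0 z a → P.T0 z b := by
    rintro a b ha hb hab ⟨g, hg⟩
    refine ⟨g, ?_⟩
    have h1 : g⁻¹ * a * g ≠ 1 := by
      intro h1
      apply ha
      have h2 : a = g * (g⁻¹ * a * g) * g⁻¹ := by group
      rw [h2, h1]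
      group
    rw [← P.eq_of_mem hz h1 hg]
    have h3 := (P.conj (g := g⁻¹) ha (g⁻¹ * b * g)).2 (by
      have h4 : g⁻¹⁻¹ * (g⁻¹ * b * g) * g⁻¹ = b := by group
      rwa [h4])
    rwa [inv_inv] at h3
  exact ⟨key x y hx hy h, key y x hy hx (P.mem_symm hy hx h)⟩

/-- C6 -/
theorem Part.T0_conj (P : Part p X) {x z : X} (g : X) : P.T0 z (g * x * g⁻¹) ↔ P.T0 z x := by
  constructor
  · rintro ⟨h, hh⟩
    refine ⟨g⁻¹ * h, ?_⟩
    have h1 : (g⁻¹ * h)⁻¹ * x * (g⁻¹ * h) = h⁻¹ * (g * x * g⁻¹) * h := by group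
    rwa [h1]
  · rintro ⟨h, hh⟩
    refine ⟨g * h, ?_⟩
    have h1 : (g * h)⁻¹ * (g * x * g⁻¹) * (g * h) = h⁻¹ * x * h := by group
    rwa [h1]

/-- The stabilizer of `K z`. -/
private def CE_N (P : Part p X) (z : X) : Subgroup X where
  carrier := {n | ∀ w, w ∈ P.K z ↔ n⁻¹ * w * n ∈ P.K z}
  mul_mem' := by
    intro a b ha hb w
    have h1 : (a * b)⁻¹ * w * (a * b) = b⁻¹ * (a⁻¹ * w * a) * b := by group
    rw [h1]
    exact (ha w).trans (hb _)
  one_mem' := by
    intro w
    rw [inv_one, one_mul, mul_one]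
  inv_mem' := by
    intro a ha w
    have h1 := ha (a⁻¹⁻¹ * w * a⁻¹)
    have h2 : a⁻¹ * (a⁻¹⁻¹ * w * a⁻¹) * a = w := by group
    rw [h2] at h1
    exact h1.symm

private theorem CE_mem (P : Part p X) {z g w : X} (hz : z ≠ 1) :
    w ∈ P.K (g * z * g⁻¹) ↔ g⁻¹ * w * g ∈ P.K z := P.conj hz w

private theorem CE_ne {g z : X} (hz : z ≠ 1) : g * z * g⁻¹ ≠ 1 := by
  intro h
  apply hz
  have h1 : z = g⁻¹ * (g * z * g⁻¹) * g := by group
  rw [h1, h]
  group

/-- C7: the conjugates of `K z`: there are `n0` of them, `|X| = n0 ν |C(z)|`.  (`n0` = number of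
values of `g ↦ K (g z g⁻¹)`; the fibres of this map are the cosets of the stabilizer `N ≥ C(z)` of
`K z`, `ν = |N| / |C(z)|`; the fibres of `x ↦ K x` on `{x ≠ 1, T0 z x}` are the conjugates of
`K z` minus the identity.) -/
theorem Part.exists_conj_count (P : Part p X) [Finite X] {z : X} (hz : z ≠ 1) :
    ∃ n0 ν : ℕ, Nat.card X = n0 * ν * Nat.card (centralizer {z} : Subgroup X) ∧
      Nat.card {x : X // x ≠ 1 ∧ P.T0 z x} = n0 * (Nat.card (P.K z) - 1) ∧
      (n0 = 1 → ∀ g u : X, u ∈ P.K z → g * u * g⁻¹ ∈ P.K z) := by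
  classical
  have hcN : (centralizer {z} : Subgroup X) ≤ CE_N P z := by
    intro c hc w
    have h1 : c * z * c⁻¹ = z := by
      rw [mul_inv_eq_iff_eq_mul]
      exact mem_centralizer_singleton_iff.1 hc
    have h2 := CE_mem P (g := c) (w := w) hz
    rw [h1] at h2
    exact h2
  obtain ⟨ν, hν⟩ := Subgroup.card_dvd_of_le hcN
  refine ⟨(CE_N P z).index, ν, ?_, ?_, ?_⟩
  · rw [← (CE_N P z).index_mul_card, hν]
    ring
  · let F : (X ⧸ CE_N P z) × {u : X // u ≠ 1 ∧ u ∈ P.K z} → {x : X // x ≠ 1 ∧ P.T0 z x} :=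
      fun q => ⟨q.1.out * q.2.1 * q.1.out⁻¹, CE_ne q.2.2.1, q.1.out, by
        have h1 : q.1.out⁻¹ * (q.1.out * q.2.1 * q.1.out⁻¹) * q.1.out = q.2.1 := by group
        rw [h1]
        exact q.2.2.2⟩
    have hF : Function.Bijective F := by
      constructor
      · rintro ⟨q, u, hu1, hu⟩ ⟨q', u', hu1', hu'⟩ he
        have h1 : q.out * u * q.out⁻¹ = q'.out * u' * q'.out⁻¹ := congrArg Subtype.val he
        have h2 : P.K (q.out * z * q.out⁻¹) = P.K (q'.out * z * q'.out⁻¹) := by
          rw [← P.eq_of_mem (CE_ne hz) (CE_ne hu1) (u := q.out * u * q.out⁻¹)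
              ((CE_mem P hz).2 (by
                have h3 : q.out⁻¹ * (q.out * u * q.out⁻¹) * q.out = u := by group
                rwa [h3])),
            h1, P.eq_of_mem (CE_ne hz) (CE_ne hu1') (u := q'.out * u' * q'.out⁻¹)
              ((CE_mem P hz).2 (by
                have h3 : q'.out⁻¹ * (q'.out * u' * q'.out⁻¹) * q'.out = u' := by group
                rwa [h3]))]
        have h4 : q.out⁻¹ * q'.out ∈ CE_N P z := by
          intro w
          have h5 : (q.out⁻¹ * q'.out)⁻¹ * w * (q.out⁻¹ * q'.out) =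
              q'.out⁻¹ * (q.out * w * q.out⁻¹) * q'.out := by group
          have h6 : q.out⁻¹ * (q.out * w * q.out⁻¹) * q.out = w := by group
          rw [h5, ← CE_mem P hz, ← h2, CE_mem P hz, h6]
        have h7 : q = q' := by
          rw [← QuotientGroup.out_eq' q, ← QuotientGroup.out_eq' q', QuotientGroup.eq]
          exact h4
        subst h7
        have h8 : u = u' := mul_left_cancel (mul_right_cancel h1)
        subst h8
        rfl
      · rintro ⟨x, hx, g, hg⟩
        let q : X ⧸ CE_N P z := (g : X ⧸ CE_N P z)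
        have h1 : g⁻¹ * q.out ∈ CE_N P z := by
          rw [← QuotientGroup.eq]
          exact (QuotientGroup.out_eq' q).symm
        have h2 : q.out⁻¹ * x * q.out ∈ P.K z := by
          have h3 := (h1 (g⁻¹ * x * g)).1 hg
          have h4 : (g⁻¹ * q.out)⁻¹ * (g⁻¹ * x * g) * (g⁻¹ * q.out) = q.out⁻¹ * x * q.out := by
            group
          rwa [h4] at h3
        have h5 : q.out⁻¹ * x * q.out ≠ 1 := by
          intro h6
          apply hx
          have h7 : x = q.out * (q.out⁻¹ * x * q.out) * q.out⁻¹ := by group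
          rw [h7, h6]
          group
        refine ⟨(q, ⟨q.out⁻¹ * x * q.out, h5, h2⟩), Subtype.ext ?_⟩
        show q.out * (q.out⁻¹ * x * q.out) * q.out⁻¹ = x
        group
    rw [← Nat.card_eq_of_bijective F hF, Nat.card_prod, P.card_ne_one hz]
    rfl
  · intro h1 g u hu
    rw [Subgroup.index_eq_one] at h1
    have h2 : g⁻¹ ∈ CE_N P z := by rw [h1]; exact mem_top _
    have h3 := (h2 u).1 hu
    rwa [inv_inv] at h3

/-- C8: orders of components and centralizers are invariant under conjugation. -/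
theorem Part.card_conj (P : Part p X) [Finite X] {y : X} (hy : y ≠ 1) (g : X) :
    Nat.card (P.K (g * y * g⁻¹)) = Nat.card (P.K y) ∧
      Nat.card (centralizer {g * y * g⁻¹} : Subgroup X)
        = Nat.card (centralizer {y} : Subgroup X) := by
  have key : ∀ A B : Subgroup X, (∀ u, u ∈ A ↔ g⁻¹ * u * g ∈ B) → Nat.card A = Nat.card B := by
    intro A B h
    refine Nat.card_congr
      { toFun := fun u => ⟨g⁻¹ * u.1 * g, (h u.1).1 u.2⟩
        invFun := fun v => ⟨g * v.1 * g⁻¹, (h _).2 (by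
          have h1 : g⁻¹ * (g * v.1 * g⁻¹) * g = v.1 := by group
          rw [h1]
          exact v.2)⟩
        left_inv := fun u => Subtype.ext (by
          show g * (g⁻¹ * u.1 * g) * g⁻¹ = u.1
          group)
        right_inv := fun v => Subtype.ext (by
          show g⁻¹ * (g * v.1 * g⁻¹) * g = v.1
          group) }
  refine ⟨key _ _ fun u => P.conj hy u, key _ _ fun u => ?_⟩
  rw [mem_centralizer_singleton_iff, mem_centralizer_singleton_iff]
  constructor
  · intro h
    calc g⁻¹ * u * g * y = g⁻¹ * (u * (g * y * g⁻¹)) * g := by group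
      _ = g⁻¹ * (g * y * g⁻¹ * u) * g := by rw [h]
      _ = y * (g⁻¹ * u * g) := by group
  · intro h
    calc u * (g * y * g⁻¹) = g * (g⁻¹ * u * g * y) * g⁻¹ := by group
      _ = g * (y * (g⁻¹ * u * g)) * g⁻¹ := by rw [h]
      _ = g * y * g⁻¹ * u := by group

private theorem CF_mul (A B : Subgroup X) (h : A ≤ B) :
    Nat.card A * A.relIndex B = Nat.card B := by
  rw [← relIndex_bot_left A, relIndex_mul_relIndex ⊥ A B bot_le h, relIndex_bot_left]

private theorem CF_le [Finite X] (K C : Subgroup X) (hK : K ≤ C) (p : ℕ)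
    (h : Nat.card C = p * Nat.card K) (S : Subgroup X) (hS : S ≤ C) : K.relIndex S ≤ p := by
  have h1 := CF_mul K C hK
  have h2 : K.relIndex C = p := by
    have h3 : Nat.card K * K.relIndex C = Nat.card K * p := by rw [h1, h, mul_comm]
    exact Nat.eq_of_mul_eq_mul_left Nat.card_pos h3
  rw [← h2]
  refine relIndex_le_of_le_right hS ?_
  intro h0
  rw [h0, mul_zero] at h1
  exact absurd h1 (Nat.card_pos (α := C)).ne

/-- C9: if `|C(y)| = p |K y|`, a subgroup of `C(y)` meeting `K y` trivially has at most `p`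
elements. -/
theorem Part.card_le (P : Part p X) [Finite X] {y : X} (D : Subgroup X)
    (hD : D ≤ centralizer {y}) (hK : P.K y ≤ centralizer {y}) (hDK : D ⊓ P.K y = ⊥)
    (h : Nat.card (centralizer {y} : Subgroup X) = p * Nat.card (P.K y)) :
    Nat.card D ≤ p := by
  have h1 := CF_le (P.K y) (centralizer {y}) hK p h D hD
  rw [← inf_relIndex_left D (P.K y), hDK, relIndex_bot_left] at h1
  exact h1

/-- C10: a subgroup `S` of `C(z)`, `|C(z)| = p |K z|`: `|S| ≤ p |S ⊓ K z|`. -/
theorem Part.card_le_mul (P : Part p X) [Finite X] [Fact p.Prime] {z : X} (hz : PEl p z)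
    (S : Subgroup X) (hS : S ≤ centralizer {z})
    (h : Nat.card (centralizer {z} : Subgroup X) = p * Nat.card (P.K z)) :
    Nat.card S ≤ p * Nat.card (S ⊓ P.K z : Subgroup X) := by
  have h1 := CF_le (P.K z) (centralizer {z}) (P.le_centralizer hz) p h S hS
  rw [← CF_mul (S ⊓ P.K z) S inf_le_left, inf_relIndex_left, mul_comm]
  exact Nat.mul_le_mul_right _ h1

end Pool.Agent.NCG
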