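import Pool.Agent.NCG.Bridge

set_option autoImplicit false

namespace Pool.Agent.NCG

open Subgroup Pool.Agent.MP_7a7339_al

universe u v

/-- If the non-commuting graphs of `G` and of the nonabelian nilpotent group `H` are isomorphic and
`G` is not nilpotent, then `|H : Z(H)|` is a power of a prime not dividing `|G : Z(G)|`. -/
theorem structure_of_not_nilpotent {G : Type u} {H : Type v} [Group G] [Group H] [Finite G]
    [Finite H] [Group.IsNilpotent H] (hH : ∃ a b : H, a * b ≠ b * a) (E : CommEquiv G H)
    (h : ¬ Group.IsNilpotent G) :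
    ∃ p k : ℕ, p.Prime ∧ 1 ≤ k ∧ (center H).index = p ^ k ∧ ¬ p ∣ (center G).index := by
  by_cases heq : Nat.card (center G) = Nat.card (center H)
  · exact absurd (isNilpotent_of_card_center_eq E heq) h
  · obtain ⟨p, k, hp, hkpos, hk⟩ := index_center_prime_pow E hH heq
    have : Fact p.Prime := ⟨hp⟩
    refine ⟨p, k, hp, hkpos, hk, ?_⟩
    rcases Nat.lt_or_gt_of_ne heq with hlt | hgt
    · exact not_dvd_index_of_lt _ G H rfl E k hk hlt
    · exact not_dvd_index_of_gt E hgt hp hkpos hk

end Pool.Agent.NCG
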