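import Mathlib

set_option autoImplicit false

/-!
An elementary abelian group of order `p ^ 2` does not act fixed point freely.
-/

namespace Pool.Agent.NCG

private theorem FA_prod {V : Type*} [CommGroup V] {p : ℕ} (θ : MulAut V) (hθ : θ ^ p = 1)
    (hf : ∀ v : V, θ v = v → v = 1) (v : V) :
    ∏ t ∈ Finset.range p, (θ ^ t) v = 1 := by
  apply hf
  rw [map_prod]
  have h0 : ∀ t : ℕ, θ ((θ ^ t) v) = (θ ^ (t + 1)) v := by
    intro t
    rw [pow_succ', MulAut.mul_apply]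
  simp_rw [h0]
  have h := Finset.prod_range_succ' (fun t => (θ ^ t) v) p
  have h2 := Finset.prod_range_succ (fun t => (θ ^ t) v) p
  rw [h2] at h
  simp only [hθ, pow_zero] at h
  exact (mul_right_cancel h).symm

/-- F1: two commuting automorphisms `φ`, `ψ` of order dividing `p` of a finite commutative group.
If all `φ ψ ^ j` and all `ψ ^ t`, `0 < t < p`, are fixed point free then `v ^ p = 1` for all `v`.
(For an automorphism `θ` with `θ ^ p = 1` the element `∏_{t < p} θ ^ t v` is fixed by `θ`.  Multiply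
`∏_t φ ^ t ψ ^ (j t) v = 1` over `j < p` and exchange the products.) -/
theorem pow_eq_one_of_fpf {V : Type*} [CommGroup V] {p : ℕ} (hp : p.Prime) (φ ψ : MulAut V)
    (hφ : φ ^ p = 1) (hψ : ψ ^ p = 1) (hc : φ * ψ = ψ * φ)
    (h1 : ∀ j, j < p → ∀ v : V, (φ * ψ ^ j) v = v → v = 1)
    (h2 : ∀ t, 0 < t → t < p → ∀ v : V, (ψ ^ t) v = v → v = 1) (v : V) : v ^ p = 1 := by
  have hc' : Commute φ ψ := hc
  have e1 : ∀ j ∈ Finset.range p, ∏ t ∈ Finset.range p, (φ ^ t) ((ψ ^ t) ^ j • v) = 1 := by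
    intro j hj
    have hθ : (φ * ψ ^ j) ^ p = 1 := by
      rw [(hc'.pow_right j).mul_pow, hφ, ← pow_mul, mul_comm j p, pow_mul, hψ, one_pow, one_mul]
    have := FA_prod (φ * ψ ^ j) hθ (h1 j (Finset.mem_range.1 hj)) v
    rw [← this]
    refine Finset.prod_congr rfl fun t _ => ?_
    rw [(hc'.pow_right j).mul_pow, MulAut.mul_apply, ← pow_mul, ← pow_mul, mul_comm j t]
    rfl
  have e2 : ∏ j ∈ Finset.range p, ∏ t ∈ Finset.range p, (φ ^ t) ((ψ ^ t) ^ j • v) = 1 :=
    Finset.prod_eq_one e1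
  rw [Finset.prod_comm] at e2
  have e3 : ∀ t ∈ Finset.range p, t ≠ 0 →
      ∏ j ∈ Finset.range p, (φ ^ t) ((ψ ^ t) ^ j • v) = 1 := by
    intro t ht ht0
    rw [← map_prod]
    have := FA_prod (ψ ^ t) (by rw [← pow_mul, mul_comm, pow_mul, hψ, one_pow])
      (h2 t (Nat.pos_of_ne_zero ht0) (Finset.mem_range.1 ht)) v
    have h4 : ∏ j ∈ Finset.range p, ((ψ ^ t) ^ j • v) = 1 := this
    rw [h4, map_one]
  rw [Finset.prod_eq_single_of_mem 0 (Finset.mem_range.2 hp.pos)
    (fun t ht h0 => e3 t ht h0)] at e2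
  simpa using e2

private def FB_conj {C : Type*} [Group C] (V : Subgroup C) (c : C)
    (h : ∀ v, v ∈ V ↔ c * v * c⁻¹ ∈ V) : MulAut V where
  toFun v := ⟨c * v * c⁻¹, (h v).1 v.2⟩
  invFun v := ⟨c⁻¹ * v * c, (h _).2 (by simp [mul_assoc])⟩
  left_inv v := by ext; simp [mul_assoc]
  right_inv v := by ext; simp [mul_assoc]
  map_mul' u v := by ext; simp [mul_assoc]

private theorem FB_pow {C : Type*} [Group C] (V : Subgroup C) (c : C)
    (h : ∀ v, v ∈ V ↔ c * v * c⁻¹ ∈ V) (t : ℕ) (v : V) :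
    (((FB_conj V c h) ^ t) v : C) = c ^ t * v * (c ^ t)⁻¹ := by
  induction t with
  | zero => simp
  | succ t ih =>
    rw [pow_succ', MulAut.mul_apply]
    change c * ((((FB_conj V c h) ^ t) v : V) : C) * c⁻¹ = _
    rw [ih, pow_succ']
    group

/-- F2: the same for conjugation by two elements `c`, `d` of a group on a commutative subgroup
`V` which they normalize. -/
theorem pow_eq_one_of_conj {C : Type*} [Group C] {p : ℕ} (hp : p.Prime) (V : Subgroup C)
    (hV : ∀ u ∈ V, ∀ v ∈ V, u * v = v * u) (c d : C)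
    (hcV : ∀ v, v ∈ V ↔ c * v * c⁻¹ ∈ V) (hdV : ∀ v, v ∈ V ↔ d * v * d⁻¹ ∈ V)
    (hc : c ^ p = 1) (hd : d ^ p = 1)
    (hcd : ∀ v ∈ V, (c * d) * v * (c * d)⁻¹ = (d * c) * v * (d * c)⁻¹)
    (h1 : ∀ j, j < p → ∀ v ∈ V, (c * d ^ j) * v = v * (c * d ^ j) → v = 1)
    (h2 : ∀ t, 0 < t → t < p → ∀ v ∈ V, d ^ t * v = v * d ^ t → v = 1) :
    ∀ v ∈ V, v ^ p = 1 := by
  intro v hv
  let iV : CommGroup V :=
    { (inferInstance : Group V) with
      mul_comm := fun u v => Subtype.ext (hV u u.2 v v.2) }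
  have hpw : ∀ (w : V), ((w ^ p : V) : C) = (w : C) ^ p := fun w => rfl
  have main := pow_eq_one_of_fpf (V := V) hp (FB_conj V c hcV) (FB_conj V d hdV) ?_ ?_ ?_ ?_ ?_
    ⟨v, hv⟩
  · have := congrArg (Subtype.val) main
    exact this
  · ext w
    rw [FB_pow, hc]
    simp
  · ext w
    rw [FB_pow, hd]
    simp
  · ext w
    have := hcd w w.2
    simp only [MulAut.mul_apply]
    change c * (d * w * d⁻¹) * c⁻¹ = d * (c * w * c⁻¹) * d⁻¹
    rw [mul_inv_rev, mul_inv_rev] at this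
    simpa [mul_assoc] using this
  · intro j hj w hw
    have e := congrArg (Subtype.val) hw
    rw [MulAut.mul_apply] at e
    change c * ((((FB_conj V d hdV) ^ j) w : V) : C) * c⁻¹ = w at e
    rw [FB_pow] at e
    apply Subtype.ext
    refine h1 j hj w w.2 ?_
    have e2 : c * (d ^ j * w * (d ^ j)⁻¹) * c⁻¹ = (c * d ^ j) * w * (c * d ^ j)⁻¹ := by group
    rw [e2] at e
    exact mul_inv_eq_iff_eq_mul.1 e
  · intro t ht0 ht w hw
    have e := congrArg (Subtype.val) hw
    rw [FB_pow] at e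
    apply Subtype.ext
    exact h2 t ht0 ht w w.2 (mul_inv_eq_iff_eq_mul.1 e)

/-- F3: in a group of order divisible by `p ^ 2` and exponent `p` there are commuting `x`, `y` with
`x * y ^ j ≠ 1` for all `j` and `y ≠ 1`.  (`Sylow.exists_subgroup_card_pow_prime`; a group of order
`p ^ 2` is commutative; `y ≠ 1` in it and `x` outside `zpowers y`.) -/
theorem exists_pair {Q : Type*} [Group Q] [Finite Q] {p : ℕ} [Fact p.Prime]
    (hexp : ∀ x : Q, x ^ p = 1) (h : p ^ 2 ∣ Nat.card Q) :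
    ∃ x y : Q, x * y = y * x ∧ y ≠ 1 ∧ ∀ j : ℕ, x * y ^ j ≠ 1 := by
  have hp : p.Prime := Fact.out
  obtain ⟨K, hK⟩ := Sylow.exists_subgroup_card_pow_prime p h
  have hcomm : ∀ a b : K, a * b = b * a :=
    (IsPGroup.isMulCommutative_of_card_eq_prime_sq hK).is_comm.comm
  have hp1 : 1 < p ^ 2 := Nat.one_lt_pow (by norm_num) hp.one_lt
  have : Nontrivial K := Finite.one_lt_card_iff_nontrivial.1 (by rw [hK]; exact hp1)
  obtain ⟨y, hy⟩ := exists_ne (1 : K)
  have hyo : orderOf (y : K) = p := orderOf_eq_prime (Subtype.ext (hexp y)) hy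
  have hne : Subgroup.zpowers y ≠ ⊤ := by
    intro ht
    have h1 : Nat.card (Subgroup.zpowers y) = p := by rw [Nat.card_zpowers, hyo]
    rw [ht, Subgroup.card_top, hK] at h1
    have h2 : p * p = p * 1 := by rw [← sq, h1, mul_one]
    exact hp.one_lt.ne' (Nat.eq_of_mul_eq_mul_left hp.pos h2)
  obtain ⟨x, hx⟩ : ∃ x : K, x ∉ Subgroup.zpowers y := by
    by_contra hcon
    push Not at hcon
    exact hne (eq_top_iff.2 fun z _ => hcon z)
  refine ⟨x, y, congrArg Subtype.val (hcomm x y), fun hy1 => hy (Subtype.ext hy1), ?_⟩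
  intro j hj
  apply hx
  have : x * y ^ j = 1 := Subtype.ext hj
  have hx' : x = (y ^ j)⁻¹ := eq_inv_of_mul_eq_one_left this
  rw [hx']
  exact Subgroup.inv_mem _ (Subgroup.pow_mem _ (Subgroup.mem_zpowers y) j)

/-- F4: Frattini argument: if `E` is normal in `C`, `C / E` is a `p`-group and `r` is a prime,
`R` a Sylow `r`-subgroup of `E` (as a subgroup of `C`), there is a `p`-subgroup `Q` of `C`
normalizing `R` with `Q E = C`.  (`Sylow.normalizer_sup_eq_top`: the normalizer `N` of `R` maps onto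
`C / E`; take a Sylow `p`-subgroup of `N`, its image in the `p`-group `C / E` is a Sylow subgroup
(`Sylow.mapSurjective`), so everything.) -/
theorem exists_pgroup_supplement {C : Type*} [Group C] [Finite C] {p r : ℕ} [Fact p.Prime]
    [Fact r.Prime] (E : Subgroup C) [E.Normal] (hE : ∀ c : C, ∃ n, c ^ p ^ n ∈ E)
    (R : Sylow r E) :
    ∃ Q : Subgroup C, IsPGroup p Q ∧
      (∀ q ∈ Q, ∀ u, u ∈ (R : Subgroup E).map E.subtype ↔
        q * u * q⁻¹ ∈ (R : Subgroup E).map E.subtype) ∧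
      ∀ c : C, ∃ q ∈ Q, q⁻¹ * c ∈ E := by
  set R' : Subgroup C := (R : Subgroup E).map E.subtype with hR'
  have hsup : Subgroup.normalizer (R' : Set C) ⊔ E = ⊤ := Sylow.normalizer_sup_eq_top R
  set N := Subgroup.normalizer (R' : Set C) with hN
  have hsurj : Function.Surjective ((QuotientGroup.mk' E).comp N.subtype) := by
    intro x
    obtain ⟨c, rfl⟩ := QuotientGroup.mk'_surjective E x
    have hc : c ∈ N ⊔ E := by rw [hsup]; trivial
    obtain ⟨n, hn, e, he, rfl⟩ := Subgroup.mem_sup_of_normal_right.1 hc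
    refine ⟨⟨n, hn⟩, ?_⟩
    change (QuotientGroup.mk' E) n = (QuotientGroup.mk' E) (n * e)
    rw [map_mul]
    have : (QuotientGroup.mk' E) e = 1 := by
      rw [← MonoidHom.mem_ker, QuotientGroup.ker_mk']; exact he
    rw [this, mul_one]
  have hquot : IsPGroup p (C ⧸ E) := by
    intro x
    obtain ⟨c, rfl⟩ := QuotientGroup.mk'_surjective E x
    obtain ⟨n, hn⟩ := hE c
    refine ⟨n, ?_⟩
    rw [← map_pow, ← MonoidHom.mem_ker, QuotientGroup.ker_mk']
    exact hn
  obtain ⟨S⟩ : Nonempty (Sylow p N) := inferInstance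
  have htop : ((S.mapSurjective hsurj : Sylow p (C ⧸ E)) : Subgroup (C ⧸ E)) = ⊤ := by
    have := (S.mapSurjective hsurj).3 (Q := ⊤) (hquot.to_subgroup ⊤) le_top
    exact this.symm
  refine ⟨(S : Subgroup N).map N.subtype, S.2.map _, ?_, ?_⟩
  · intro q hq u
    obtain ⟨n, hn, rfl⟩ := Subgroup.mem_map.1 hq
    have h3 : (n : C) ∈ Subgroup.normalizer (R' : Set C) := n.2
    exact Subgroup.mem_normalizer_iff.1 h3 u
  · intro c
    have hc : QuotientGroup.mk' E c ∈ ((S.mapSurjective hsurj : Sylow p (C ⧸ E)) :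
        Subgroup (C ⧸ E)) := by rw [htop]; trivial
    have hc' : QuotientGroup.mk' E c ∈
        (S : Subgroup N).map ((QuotientGroup.mk' E).comp N.subtype) := hc
    obtain ⟨n, hn, hnc⟩ := Subgroup.mem_map.1 hc'
    refine ⟨n, Subgroup.mem_map.2 ⟨n, hn, rfl⟩, ?_⟩
    exact QuotientGroup.eq.1 hnc

/-- F5: the index of `E` in `C` divides `p` (a form of the Hughes-Thompson theorem).  (`C / E` has
exponent `p`; if the index does not divide `p`, `p ^ 2` divides it.  F3 for `C / E`, F4 for a Sylow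
`r`-subgroup `R` of `E`: choose `c`, `d ∈ Q` over `x`, `y`; `V` = centre of `R`.  `c ^ p = d ^ p = 1` by
`h1`; `(d c)⁻¹ (c d)` is a `p`-element of `E`, so central in `E` by `h2`; the fixed points are
handled by `h3` (`v ^ p = 1` and `v` an `r`-element).  F2 gives `v ^ p = 1` on `V`, so `V = 1`,
contradicting `IsPGroup.center_nontrivial` and `h4`.) -/
theorem index_dvd_prime {C : Type*} [Group C] [Finite C] {p r : ℕ} [Fact p.Prime]
    [Fact r.Prime] (hrp : r ≠ p) (E : Subgroup C) [E.Normal]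
    (h1 : ∀ c : C, c ∉ E → c ^ p = 1)
    (h2 : ∀ y ∈ E, (∃ n, y ^ p ^ n = 1) → ∀ e ∈ E, e * y = y * e)
    (h3 : ∀ c : C, c ∉ E → ∀ e ∈ E, e * c = c * e → e ^ p = 1)
    (h4 : r ∣ Nat.card E) : E.index ∣ p := by
  have hp : p.Prime := Fact.out
  have hr : r.Prime := Fact.out
  have hcp : ∀ c : C, c ^ p ∈ E := by
    intro c
    by_cases hc : c ∈ E
    · exact E.pow_mem hc p
    · rw [h1 c hc]; exact E.one_mem
  have hexp : ∀ x : C ⧸ E, x ^ p = 1 := by
    intro x
    obtain ⟨c, rfl⟩ := QuotientGroup.mk'_surjective E x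
    rw [← map_pow, ← MonoidHom.mem_ker, QuotientGroup.ker_mk']
    exact hcp c
  have hquot : IsPGroup p (C ⧸ E) := fun x => ⟨1, by rw [pow_one]; exact hexp x⟩
  obtain ⟨n, hn⟩ := IsPGroup.iff_card.1 hquot
  have hidx : E.index = p ^ n := hn
  rcases Nat.lt_or_ge n 2 with hn2 | hn2
  · rw [hidx]
    have : n ≤ 1 := by omega
    simpa using pow_dvd_pow p this
  exfalso
  obtain ⟨x, y, hxy, hy, hxyj⟩ := exists_pair hexp (by rw [hn]; exact pow_dvd_pow p hn2)
  obtain ⟨R⟩ : Nonempty (Sylow r E) := inferInstance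
  obtain ⟨Q, hQp, hQR, hQE⟩ := exists_pgroup_supplement (p := p) E
    (fun c => ⟨1, by rw [pow_one]; exact hcp c⟩) R
  have lift : ∀ z : C ⧸ E, ∃ q ∈ Q, QuotientGroup.mk' E q = z := by
    intro z
    obtain ⟨c, rfl⟩ := QuotientGroup.mk'_surjective E z
    obtain ⟨q, hq, hqc⟩ := hQE c
    exact ⟨q, hq, QuotientGroup.eq.2 hqc⟩
  obtain ⟨c, hcQ, hcx⟩ := lift x
  obtain ⟨d, hdQ, hdy⟩ := lift y
  have memE : ∀ u : C, u ∈ E ↔ QuotientGroup.mk' E u = 1 := by
    intro u
    rw [← MonoidHom.mem_ker, QuotientGroup.ker_mk']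
  have hcd' : ∀ j : ℕ, c * d ^ j ∉ E := by
    intro j hj
    rw [memE, map_mul, map_pow, hcx, hdy] at hj
    exact hxyj j hj
  have hcE : c ∉ E := by simpa using hcd' 0
  have hyo : orderOf y = p := orderOf_eq_prime (hexp y) hy
  have hdt : ∀ t, 0 < t → t < p → d ^ t ∉ E := by
    intro t ht0 ht hE
    rw [memE, map_pow, hdy] at hE
    have := orderOf_dvd_of_pow_eq_one hE
    rw [hyo] at this
    exact absurd (Nat.le_of_dvd ht0 this) (by omega)
  have hdE : d ∉ E := by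
    have := hdt 1 one_pos hp.one_lt
    simpa using this
  set R' : Subgroup C := (R : Subgroup E).map E.subtype with hR'
  have hR'E : ∀ u ∈ R', u ∈ E := by
    intro u hu
    obtain ⟨w, _, rfl⟩ := Subgroup.mem_map.1 hu
    exact w.2
  have hR'r : IsPGroup r R' := R.2.map _
  -- r-element with v ^ p = 1 is trivial
  have hrel : ∀ v ∈ R', v ^ p = 1 → v = 1 := by
    intro v hv hvp
    obtain ⟨k, hk⟩ := hR'r ⟨v, hv⟩
    have hk' : v ^ r ^ k = 1 := congrArg Subtype.val hk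
    have hd1 := orderOf_dvd_of_pow_eq_one hk'
    have hd2 := orderOf_dvd_of_pow_eq_one hvp
    have hco : Nat.Coprime (r ^ k) p :=
      Nat.Coprime.pow_left k ((Nat.coprime_primes hr hp).2 hrp)
    have : orderOf v ∣ 1 := by
      have := Nat.dvd_gcd hd1 hd2
      rwa [hco] at this
    exact orderOf_eq_one_iff.1 (Nat.dvd_one.1 this)
  set V : Subgroup C := (Subgroup.center R').map R'.subtype with hVdef
  have hVmem : ∀ v : C, v ∈ V ↔ v ∈ R' ∧ ∀ u ∈ R', u * v = v * u := by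
    intro v
    constructor
    · intro hv
      obtain ⟨w, hw, rfl⟩ := Subgroup.mem_map.1 hv
      refine ⟨w.2, fun u hu => ?_⟩
      have := Subgroup.mem_center_iff.1 hw ⟨u, hu⟩
      exact congrArg Subtype.val this
    · rintro ⟨hv, hcom⟩
      refine Subgroup.mem_map.2 ⟨⟨v, hv⟩, ?_, rfl⟩
      rw [Subgroup.mem_center_iff]
      intro u
      exact Subtype.ext (hcom u u.2)
  have hQV : ∀ q ∈ Q, ∀ v, v ∈ V ↔ q * v * q⁻¹ ∈ V := by
    have key : ∀ q ∈ Q, ∀ v ∈ V, q * v * q⁻¹ ∈ V := by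
      intro q hq v hv
      rw [hVmem] at hv ⊢
      refine ⟨(hQR q hq v).1 hv.1, fun u hu => ?_⟩
      have hu' : q⁻¹ * u * q ∈ R' := by
        have := (hQR q hq (q⁻¹ * u * q))
        rw [this]
        simpa [mul_assoc] using hu
      have := hv.2 _ hu'
      calc u * (q * v * q⁻¹) = q * ((q⁻¹ * u * q) * v) * q⁻¹ := by group
        _ = q * (v * (q⁻¹ * u * q)) * q⁻¹ := by rw [this]
        _ = q * v * q⁻¹ * u := by group
    intro q hq v
    refine ⟨key q hq v, fun h => ?_⟩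
    have := key q⁻¹ (Q.inv_mem hq) _ h
    simpa [mul_assoc] using this
  have hVall : ∀ v ∈ V, v ^ p = 1 := by
    refine pow_eq_one_of_conj hp V ?_ c d (hQV c hcQ) (hQV d hdQ) (h1 c hcE) (h1 d hdE) ?_ ?_ ?_
    · intro u hu v hv
      exact ((hVmem v).1 hv).2 u ((hVmem u).1 hu).1
    · intro v hv
      set z := (d * c)⁻¹ * (c * d) with hz
      have hzE : z ∈ E := by
        rw [memE, hz, map_mul, map_inv, map_mul, map_mul, hcx, hdy, hxy]
        group
      have hzQ : z ∈ Q :=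
        Q.mul_mem (Q.inv_mem (Q.mul_mem hdQ hcQ)) (Q.mul_mem hcQ hdQ)
      have hzp : ∃ n, z ^ p ^ n = 1 := by
        obtain ⟨k, hk⟩ := hQp ⟨z, hzQ⟩
        exact ⟨k, congrArg Subtype.val hk⟩
      have hvE : v ∈ E := hR'E v ((hVmem v).1 hv).1
      have hcomm := h2 z hzE hzp v hvE
      have hcz : c * d = d * c * z := by rw [hz]; group
      have hzv : z * v * z⁻¹ = v := by rw [← hcomm]; group
      calc c * d * v * (c * d)⁻¹ = (d * c) * (z * v * z⁻¹) * (d * c)⁻¹ := by rw [hcz]; group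
        _ = (d * c) * v * (d * c)⁻¹ := by rw [hzv]
    · intro j hj v hv hcom
      have hvR := ((hVmem v).1 hv).1
      exact hrel v hvR (h3 _ (hcd' j) v (hR'E v hvR) hcom.symm)
    · intro t ht0 ht v hv hcom
      have hvR := ((hVmem v).1 hv).1
      exact hrel v hvR (h3 _ (hdt t ht0 ht) v (hR'E v hvR) hcom.symm)
  -- R' is nontrivial
  have hRne : (R : Subgroup E) ≠ ⊥ := R.ne_bot_of_dvd_card h4
  have hR'nt : Nontrivial R' := by
    rw [← Subgroup.nontrivial_iff_ne_bot] at hRne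
    obtain ⟨w, hw⟩ := exists_ne (1 : (R : Subgroup E))
    refine ⟨⟨⟨(w : E), Subgroup.mem_map.2 ⟨w, w.2, rfl⟩⟩, 1, fun h => hw ?_⟩⟩
    have : ((w : E) : C) = 1 := congrArg Subtype.val h
    exact Subtype.ext (Subtype.ext this)
  have hcn : Nontrivial (Subgroup.center R') := hR'r.center_nontrivial
  obtain ⟨w, hw⟩ := exists_ne (1 : Subgroup.center R')
  apply hw
  have hwV : ((w : R') : C) ∈ V := Subgroup.mem_map.2 ⟨w, w.2, rfl⟩
  have := hrel _ (w : R').2 (hVall _ hwV)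
  exact Subtype.ext (Subtype.ext this)

end Pool.Agent.NCG
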