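import Mathlib

set_option autoImplicit false

/-!
Arithmetic of the orders of the components.  Throughout `a < b` are coprime, `p` is prime,
and `Ty a b p n i` says `a (n - 1) = b (p ^ i - 1)`.
-/

namespace Pool.Agent.NCG

/-- `n` is of type `i`: `a (n - 1) = b (p ^ i - 1)`. -/
def Ty (a b p n i : ℕ) : Prop := a * n + b = b * p ^ i + a

variable {a b p : ℕ}

private theorem NA_eq {n i : ℕ} (hab : a < b) (h : Ty a b p n i) :
    a * n + (b - a) = b * p ^ i := by
  unfold Ty at h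
  omega

/-- N1 -/
theorem ty_dvd_sub {n i : ℕ} (hab : a < b) (hi : 1 ≤ i) (h : Ty a b p n i) (hn : p ∣ n) :
    p ∣ b - a := by
  have h1 := NA_eq hab h
  have h2 : p ∣ a * n + (b - a) := by
    rw [h1]
    exact Dvd.dvd.mul_left (dvd_pow_self p (by omega)) b
  exact (Nat.dvd_add_right (Dvd.dvd.mul_left hn a)).1 h2

/-- N2 -/
theorem ty_not_dvd (hp : p.Prime) (hab : a < b) (hc : Nat.Coprime a b) (hd : p ∣ b - a) :
    ¬ p ∣ a ∧ ¬ p ∣ b := by
  have hba : b = a + (b - a) := by omega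
  have key : ¬ (p ∣ a ∧ p ∣ b) := by
    rintro ⟨h1, h2⟩
    have h3 : p ∣ Nat.gcd a b := Nat.dvd_gcd h1 h2
    rw [hc] at h3
    exact hp.one_lt.ne' (Nat.dvd_one.1 h3)
  constructor
  · intro h1
    apply key
    refine ⟨h1, ?_⟩
    rw [hba]
    exact dvd_add h1 hd
  · intro h2
    apply key
    refine ⟨?_, h2⟩
    rw [hba] at h2
    exact (Nat.dvd_add_left hd).1 h2

/-- N3 -/
theorem ty_dvd {n i : ℕ} (hp : p.Prime) (hab : a < b) (hc : Nat.Coprime a b) (hd : p ∣ b - a)
    (hi : 1 ≤ i) (h : Ty a b p n i) : p ∣ n := by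
  have h1 := NA_eq hab h
  have h2 : p ∣ a * n + (b - a) := by
    rw [h1]
    exact Dvd.dvd.mul_left (dvd_pow_self p (by omega)) b
  have h3 : p ∣ a * n := (Nat.dvd_add_left hd).1 h2
  rcases (Nat.Prime.dvd_mul hp).1 h3 with h4 | h4
  · exact absurd h4 (ty_not_dvd hp hab hc hd).1
  · exact h4

/-- N4 -/
theorem ty_lt {n n' i i' : ℕ} (hp : p.Prime) (ha : 0 < a) (hab : a < b)
    (h : Ty a b p n i) (h' : Ty a b p n' i') (hlt : i < i') : n < n' := by
  have h1 : p ^ i < p ^ i' := Nat.pow_lt_pow_right hp.one_lt hlt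
  have hb : 0 < b := by omega
  have h2 : b * p ^ i < b * p ^ i' := Nat.mul_lt_mul_of_pos_left h1 hb
  unfold Ty at h h'
  have h3 : a * n < a * n' := by omega
  exact Nat.lt_of_mul_lt_mul_left h3

/-- N5 -/
theorem ty_pow_lt {n i : ℕ} (hp : p.Prime) (ha : 0 < a) (hab : a < b) (hi : 1 ≤ i)
    (h : Ty a b p n i) : p ^ i < n := by
  have h1 : 1 < p ^ i := Nat.one_lt_pow (by omega) hp.one_lt
  unfold Ty at h
  by_contra hcon
  have hle : n ≤ p ^ i := Nat.le_of_not_lt hcon
  have h2 : a * n ≤ a * p ^ i := Nat.mul_le_mul_left a hle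
  obtain ⟨c, hc⟩ : ∃ c, b = a + c := ⟨b - a, by omega⟩
  have hc0 : 0 < c := by omega
  have h3 : b * p ^ i = a * p ^ i + c * p ^ i := by rw [hc, Nat.add_mul]
  have h4 : c * 1 < c * p ^ i := Nat.mul_lt_mul_of_pos_left h1 hc0
  omega

/-- N6 -/
theorem ty_inj {n n' i : ℕ} (ha : 0 < a) (h : Ty a b p n i) (h' : Ty a b p n' i) : n = n' := by
  unfold Ty at h h'
  have h1 : a * n = a * n' := by omega
  exact Nat.eq_of_mul_eq_mul_left ha h1

private theorem NB_ne {n i : ℕ} (hp : p.Prime) (ha : 0 < a) (h : Ty a b p n i) : n ≠ 0 := by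
  rintro rfl
  unfold Ty at h
  have h1 : 1 ≤ p ^ i := Nat.one_le_pow _ _ hp.pos
  have h2 : b * 1 ≤ b * p ^ i := Nat.mul_le_mul_left b h1
  omega

private theorem NB_pow {n k : ℕ} (hp : p.Prime) (hab : a < b) (hc : Nat.Coprime a b)
    (hd : p ∣ b - a) (h : p ^ k ∣ a * n) : p ^ k ∣ n := by
  have h1 : Nat.Coprime (p ^ k) a :=
    Nat.Coprime.pow_left k ((Nat.Prime.coprime_iff_not_dvd hp).2 (ty_not_dvd hp hab hc hd).1)
  exact h1.dvd_of_dvd_mul_left h

/-- N7 -/
theorem ty_fact_lt {n i : ℕ} (hp : p.Prime) (ha : 0 < a) (hab : a < b) (hc : Nat.Coprime a b)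
    (hd : p ∣ b - a) (h : Ty a b p n i) (hlt : i < (b - a).factorization p) :
    n.factorization p = i := by
  have hn : n ≠ 0 := NB_ne hp ha h
  have hba : b - a ≠ 0 := by omega
  have h1 := NA_eq hab h
  have hsucc : p ^ (i + 1) ∣ b - a := (hp.pow_dvd_iff_le_factorization hba).2 hlt
  have hpi : p ^ i ∣ b - a := dvd_trans (pow_dvd_pow p (Nat.le_succ i)) hsucc
  apply le_antisymm
  · by_contra hcon
    have h2 : p ^ (i + 1) ∣ n := (hp.pow_dvd_iff_le_factorization hn).2 (by omega)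
    have h3 : p ^ (i + 1) ∣ b * p ^ i := by
      rw [← h1]
      exact dvd_add (Dvd.dvd.mul_left h2 a) hsucc
    have h4 : p ∣ b := by
      have h5 : p * p ^ i ∣ b * p ^ i := by
        rw [pow_succ, Nat.mul_comm] at h3
        exact h3
      exact Nat.dvd_of_mul_dvd_mul_right (Nat.pow_pos hp.pos) h5
    exact (ty_not_dvd hp hab hc hd).2 h4
  · apply (hp.pow_dvd_iff_le_factorization hn).1
    apply NB_pow hp hab hc hd
    have h2 : p ^ i ∣ a * n + (b - a) := by
      rw [h1]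
      exact Dvd.intro_left b rfl
    exact (Nat.dvd_add_left hpi).1 h2

/-- N8 -/
theorem ty_fact_ge {n i : ℕ} (hp : p.Prime) (ha : 0 < a) (hab : a < b) (hc : Nat.Coprime a b)
    (hd : p ∣ b - a) (h : Ty a b p n i) (hle : (b - a).factorization p ≤ i) :
    (b - a).factorization p ≤ n.factorization p := by
  have hn : n ≠ 0 := NB_ne hp ha h
  have hba : b - a ≠ 0 := by omega
  have h1 := NA_eq hab h
  have hv : p ^ (b - a).factorization p ∣ b - a :=
    (hp.pow_dvd_iff_le_factorization hba).2 le_rfl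
  apply (hp.pow_dvd_iff_le_factorization hn).1
  apply NB_pow hp hab hc hd
  have h2 : p ^ (b - a).factorization p ∣ a * n + (b - a) := by
    rw [h1]
    exact Dvd.dvd.mul_left (pow_dvd_pow p hle) b
  exact (Nat.dvd_add_left hv).1 h2

/-- N9 -/
theorem ty_fact_gt {n i : ℕ} (hp : p.Prime) (ha : 0 < a) (hab : a < b) (hc : Nat.Coprime a b)
    (hd : p ∣ b - a) (h : Ty a b p n i) (hlt : (b - a).factorization p < i) :
    n.factorization p = (b - a).factorization p := by
  have hn : n ≠ 0 := NB_ne hp ha h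
  have hba : b - a ≠ 0 := by omega
  have h1 := NA_eq hab h
  apply le_antisymm
  · by_contra hcon
    have h2 : p ^ ((b - a).factorization p + 1) ∣ n :=
      (hp.pow_dvd_iff_le_factorization hn).2 (by omega)
    have h3 : p ^ ((b - a).factorization p + 1) ∣ a * n + (b - a) := by
      rw [h1]
      exact Dvd.dvd.mul_left (pow_dvd_pow p hlt) b
    have h4 : p ^ ((b - a).factorization p + 1) ∣ b - a :=
      (Nat.dvd_add_right (Dvd.dvd.mul_left h2 a)).1 h3
    have h5 := (hp.pow_dvd_iff_le_factorization hba).1 h4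
    omega
  · exact ty_fact_ge hp ha hab hc hd h hlt.le

/-- N10: consecutive types do not divide.  (`a (n - p A) = (p - 1)(b - a) > 0`, so
`A ≤ n - p A`, but `a A = b p ^ j - (b - a) > (p - 1)(b - a)`.) -/
theorem ty_step_false {n A j : ℕ} (hp : p.Prime) (ha : 0 < a) (hab : a < b) (hj : 1 ≤ j)
    (hA : Ty a b p A j) (hn : Ty a b p n (j + 1)) (hdvd : A ∣ n) : False := by
  unfold Ty at hA hn
  obtain ⟨c, hc⟩ : ∃ c, b = a + c := ⟨b - a, by omega⟩
  have hc0 : 0 < c := by omega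
  obtain ⟨q, hq⟩ : ∃ q, p = q + 1 := ⟨p - 1, by have := hp.pos; omega⟩
  have hq0 : 0 < q := by have := hp.one_lt; omega
  have hpj : p ≤ p ^ j := by
    calc p = p ^ 1 := (pow_one p).symm
      _ ≤ p ^ j := Nat.pow_le_pow_right hp.pos hj
  have e1 : a * A + c = b * p ^ j := by
    rw [hc] at hA ⊢
    omega
  have e2 : a * n + c = p * (b * p ^ j) := by
    have e3 : p * (b * p ^ j) = b * p ^ (j + 1) := by ring
    rw [e3]
    rw [hc] at hn ⊢
    omega
  have e4 : a * n = a * (p * A) + q * c := by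
    rw [← e1] at e2
    have e5 : p * (a * A + c) = a * (p * A) + (q * c + c) := by
      rw [hq]
      ring
    rw [e5] at e2
    omega
  have hqc : 0 < q * c := Nat.mul_pos hq0 hc0
  have hlt : p * A < n := by
    have e6 : a * (p * A) < a * n := by omega
    exact Nat.lt_of_mul_lt_mul_left e6
  obtain ⟨r, hr⟩ : ∃ r, n = p * A + r := ⟨n - p * A, by omega⟩
  have hr0 : 0 < r := by omega
  have hAr : A ∣ r := by
    rw [hr] at hdvd
    exact (Nat.dvd_add_right (Dvd.intro_left p rfl)).1 hdvd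
  have hle : A ≤ r := Nat.le_of_dvd hr0 hAr
  have e7 : a * r = q * c := by
    rw [hr, Nat.mul_add] at e4
    omega
  have e8 : a * A ≤ q * c := by
    rw [← e7]
    exact Nat.mul_le_mul_left a hle
  have e9 : b * p ≤ b * p ^ j := Nat.mul_le_mul_left b hpj
  have e10 : b * p = q * c + c + (a * q + a) := by
    rw [hc, hq]
    ring
  omega

/-- N11: `a (B - p) = (b - a)(p - 1)` and `p ^ δ` divides `b - a`. -/
theorem ty_one_lower {B : ℕ} (hp : p.Prime) (ha : 0 < a) (hab : a < b) (hc : Nat.Coprime a b)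
    (hd : p ∣ b - a) (hB : Ty a b p B 1) : p + p ^ ((b - a).factorization p) ≤ B := by
  have hba : b - a ≠ 0 := by omega
  have hv : p ^ (b - a).factorization p ∣ b - a :=
    (hp.pow_dvd_iff_le_factorization hba).2 le_rfl
  have hlt : p ^ 1 < B := ty_pow_lt hp ha hab le_rfl hB
  rw [pow_one] at hlt
  unfold Ty at hB
  rw [pow_one] at hB
  obtain ⟨c, hc'⟩ : ∃ c, c = b - a := ⟨b - a, rfl⟩
  rw [← hc'] at hv ⊢
  have hb : b = a + c := by omega
  obtain ⟨q, hq⟩ : ∃ q, p = q + 1 := ⟨p - 1, by have := hp.pos; omega⟩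
  obtain ⟨r, hr⟩ : ∃ r, B = p + r := ⟨B - p, by omega⟩
  have hr0 : 0 < r := by omega
  have e1 : a * r = q * c := by
    have e2 : a * (p + r) + (a + c) = (a + c) * p + a := by
      rw [← hr, ← hb]
      exact hB
    have e3 : a * (p + r) = a * p + a * r := by ring
    have e4 : (a + c) * p = a * p + (q * c + c) := by
      rw [hq]
      ring
    rw [e3, e4] at e2
    omega
  have h2 : p ^ c.factorization p ∣ a * r := by
    rw [e1]
    exact Dvd.dvd.mul_left hv q
  have h3 : p ^ c.factorization p ∣ r := NB_pow hp hab hc hd h2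
  have h4 := Nat.le_of_dvd hr0 h3
  omega

/-- N12 -/
theorem ty_gt_mul {A B j : ℕ} (hp : p.Prime) (ha : 0 < a) (hab : a < b) (hj : 2 ≤ j)
    (hA : Ty a b p A j) (hB : Ty a b p B 1) : p * B < A := by
  unfold Ty at hA hB
  rw [pow_one] at hB
  obtain ⟨c, hc⟩ : ∃ c, b = a + c := ⟨b - a, by omega⟩
  have hc0 : 0 < c := by omega
  obtain ⟨q, hq⟩ : ∃ q, p = q + 1 := ⟨p - 1, by have := hp.pos; omega⟩
  have hq0 : 0 < q := by have := hp.one_lt; omega
  have hpj : p * p ≤ p ^ j := by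
    calc p * p = p ^ 2 := (sq p).symm
      _ ≤ p ^ j := Nat.pow_le_pow_right hp.pos hj
  have e1 : a * A + c = b * p ^ j := by
    rw [hc] at hA ⊢
    omega
  have e2 : a * B + c = b * p := by
    rw [hc] at hB ⊢
    omega
  have e3 : a * (p * B) + (q * c + c) = b * (p * p) := by
    have e4 : b * (p * p) = p * (b * p) := by ring
    rw [e4, ← e2, hq]
    ring
  have e5 : b * (p * p) ≤ b * p ^ j := Nat.mul_le_mul_left b hpj
  have hqc : 0 < q * c := Nat.mul_pos hq0 hc0
  have e6 : a * (p * B) < a * A := by omega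
  exact Nat.lt_of_mul_lt_mul_left e6

/-- N13: the case `δ = 2`. -/
theorem num_two {g B κ : ℕ} (hp : p.Prime) (hB : p + p ^ 2 ≤ B) (hBg : B < g)
    (h : (p - 1) * (g - 1) * (p * B) = κ * g * (B - 1)) : False := by
  obtain ⟨q, hq⟩ : ∃ q, p = q + 1 := ⟨p - 1, by have := hp.pos; omega⟩
  have hq0 : 0 < q := by have := hp.one_lt; omega
  obtain ⟨s, hs⟩ : ∃ s, B = s + 1 := ⟨B - 1, by have := hp.pos; omega⟩
  obtain ⟨t, ht⟩ : ∃ t, g = t + 1 := ⟨g - 1, by omega⟩
  have hst : s < t := by omega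
  have hsN : q * p + 1 ≤ s := by
    have e1 : p + p ^ 2 = q * p + 2 * p := by
      rw [hq]
      ring
    have e2 := hp.one_lt
    omega
  have e3 : (p - 1) * (g - 1) * (p * B) = (q * p) * (t * (s + 1)) := by
    rw [ht, hs, Nat.add_sub_cancel]
    have e4 : p - 1 = q := by omega
    rw [e4]
    ring
  have e5 : κ * g * (B - 1) = κ * ((t + 1) * s) := by
    rw [ht, hs, Nat.add_sub_cancel]
    ring
  rw [e3, e5] at h
  have hNpos : 0 < q * p := Nat.mul_pos hq0 hp.pos
  have e6 : (t + 1) * s < t * (s + 1) := by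
    have e7 : (t + 1) * s = t * s + s := by ring
    have e8 : t * (s + 1) = t * s + t := by ring
    omega
  rcases Nat.lt_or_ge (q * p) κ with h1 | h1
  · have e9 : (q * p + 1) * ((t + 1) * s) ≤ κ * ((t + 1) * s) := Nat.mul_le_mul_right _ h1
    have e10 : (q * p + 1) * ((t + 1) * s) = (q * p) * (t * s) + (q * p) * s + (t * s + s) := by
      ring
    have e11 : (q * p) * (t * (s + 1)) = (q * p) * (t * s) + (q * p) * t := by ring
    have e12 : (q * p + 1) * t ≤ s * t := Nat.mul_le_mul_right t hsN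
    have e13 : (q * p + 1) * t = (q * p) * t + t := by ring
    have e14 : s * t = t * s := Nat.mul_comm s t
    omega
  · have e9 : κ * ((t + 1) * s) ≤ (q * p) * ((t + 1) * s) := Nat.mul_le_mul_right _ h1
    have e10 : (q * p) * ((t + 1) * s) < (q * p) * (t * (s + 1)) :=
      Nat.mul_lt_mul_of_pos_left e6 hNpos
    omega

/-- N14: the case `δ ≥ 3`.  With `l = p (p - 1) - κ` (an integer) the hypotheses give
`n0 A [(p - 1)(B - ν p) - l ν (B - 1)] = (p - 1) B (n0 - 1)`, and `A > p B` forces the bracket to be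
zero. -/
theorem num_three {g A B κ n0 ν M X0 X1 : ℕ} (hp : p.Prime) (hB : p < B) (hA : p * B < A)
    (hg : g = n0 * ν * (p * A)) (hg0 : 0 < g) (hM : M * (p * B) = κ * g)
    (hX1 : X1 * (p - 1) = M * (B - 1)) (hX0 : X0 = n0 * (A - 1)) (hX : X0 + X1 + 1 = g) :
    n0 = 1 := by
  have hp2 := hp.two_le
  have hn0 : 0 < n0 := by
    rcases Nat.eq_zero_or_pos n0 with h | h
    · rw [h] at hg
      simp at hg
      omega
    · exact h
  have hA0 : 0 < A := by omega
  -- pass to integers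
  have e1 : (g : ℤ) = n0 * ν * (p * A) := by exact_mod_cast hg
  have e2 : (M : ℤ) * (p * B) = κ * g := by exact_mod_cast hM
  have e3 : (X1 : ℤ) * (p - 1) = M * (B - 1) := by
    have h1 : ((X1 * (p - 1) : ℕ) : ℤ) = ((M * (B - 1) : ℕ) : ℤ) := by rw [hX1]
    rw [Nat.cast_mul, Nat.cast_mul, Nat.cast_sub (by omega), Nat.cast_sub (by omega)] at h1
    simpa using h1
  have e4 : (X0 : ℤ) = n0 * (A - 1) := by
    rw [hX0, Nat.cast_mul, Nat.cast_sub (by omega)]
    simp
  have e5 : (X0 : ℤ) + X1 + 1 = g := by exact_mod_cast hX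
  have hpz : (2 : ℤ) ≤ p := by exact_mod_cast hp2
  have hBz : (p : ℤ) < B := by exact_mod_cast hB
  have hAz : (p : ℤ) * B < A := by exact_mod_cast hA
  have hnz : (1 : ℤ) ≤ n0 := by exact_mod_cast hn0
  have hgz : (0 : ℤ) < g := by exact_mod_cast hg0
  -- the key identity
  have key : (p : ℤ) * ((n0 : ℤ) * A * ((p - 1) * (B - ν * p) - (p * (p - 1) - κ) * ν * (B - 1))
      - (p - 1) * B * (n0 - 1)) = 0 := by
    have h6 : (p - 1 : ℤ) * (p * B) * (X0 + X1 + 1) = (p - 1) * (p * B) * g := by rw [e5]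
    have h7 : (p - 1 : ℤ) * (p * B) * X1 = κ * g * (B - 1) := by
      calc (p - 1 : ℤ) * (p * B) * X1 = (X1 * (p - 1)) * (p * B) := by ring
        _ = (M * (p * B)) * (B - 1) := by rw [e3]; ring
        _ = _ := by rw [e2]
    have h8 : (p - 1 : ℤ) * (p * B) * (n0 * (A - 1) + 1) + κ * g * (B - 1)
        = (p - 1) * (p * B) * g := by
      rw [← h6, ← h7, e4]
      ring
    rw [e1] at h8
    linear_combination h8
  have key2 : (n0 : ℤ) * A * ((p - 1) * (B - ν * p) - (p * (p - 1) - κ) * ν * (B - 1))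
      = (p - 1) * B * (n0 - 1) := by
    have h9 : (p : ℤ) ≠ 0 := by omega
    have h10 := (mul_eq_zero.1 key).resolve_left h9
    linarith
  generalize hQ : ((p - 1) * (B - ν * p) - (p * (p - 1) - κ) * ν * (B - 1) : ℤ) = Q at key2
  have hr0 : (0 : ℤ) ≤ (p - 1) * B * (n0 - 1) := by
    apply mul_nonneg
    · apply mul_nonneg <;> omega
    · omega
  have hnA : (0 : ℤ) < n0 * A := by
    apply mul_pos
    · omega
    · exact_mod_cast hA0
  have hQ0 : 0 ≤ Q := by
    by_contra hneg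
    push Not at hneg
    have : (n0 : ℤ) * A * Q < 0 := mul_neg_of_pos_of_neg hnA hneg
    omega
  have hQ1 : Q < 1 := by
    by_contra hge
    push Not at hge
    have h11 : (n0 : ℤ) * A * 1 ≤ n0 * A * Q := mul_le_mul_of_nonneg_left hge hnA.le
    have h12 : ((p : ℤ) - 1) * B < A := by
      have : ((p : ℤ) - 1) * B = p * B - B := by ring
      omega
    have h14 : ((p : ℤ) - 1) * B * n0 < A * n0 := by
      apply mul_lt_mul_of_pos_right h12
      omega
    have h13 : (0 : ℤ) ≤ (p - 1) * B := by apply mul_nonneg <;> omega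
    have h17 : ((p : ℤ) - 1) * B * (n0 - 1) = (p - 1) * B * n0 - (p - 1) * B := by ring
    have h18 : (n0 : ℤ) * A * 1 = A * n0 := by ring
    rw [h18] at h11
    rw [h17] at key2
    generalize (n0 : ℤ) * A * Q = a1 at *
    generalize ((p : ℤ) - 1) * B * n0 = a2 at *
    generalize ((p : ℤ) - 1) * B = a3 at *
    generalize (A : ℤ) * n0 = a4 at *
    omega
  have hQz : Q = 0 := by omega
  rw [hQz, mul_zero] at key2
  have h15 : ((p : ℤ) - 1) * B ≠ 0 := by
    have : (0 : ℤ) < (p - 1) * B := by apply mul_pos <;> omega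
    omega
  have h16 := (mul_eq_zero.1 key2.symm).resolve_left h15
  omega

end Pool.Agent.NCG
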