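import Pool.Agent.NCG.Num
import Pool.Agent.NCG.Fpf
import Pool.Agent.MP_7a7339_al.SylowCentral

set_option autoImplicit false

/-!
Partitions of a finite group, closed under conjugation, in which `p`-elements are central in their
component.
-/

namespace Pool.Agent.NCG

open Subgroup

/-- A partition of `X`: `K y` is the component of `y` (for `y ≠ 1`). -/
structure Part (p : ℕ) (X : Type*) [Group X] where
  /-- the component -/
  K : X → Subgroup X
  self : ∀ y, y ∈ K y
  eq_of_mem : ∀ {u y : X}, y ≠ 1 → u ≠ 1 → u ∈ K y → K u = K y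
  conj : ∀ {g y : X}, y ≠ 1 → ∀ u, u ∈ K (g * y * g⁻¹) ↔ g⁻¹ * u * g ∈ K y
  central : ∀ {y : X}, y ≠ 1 → (∃ n, y ^ p ^ n = 1) → ∀ u ∈ K y, u * y = y * u
  dvd : ∀ {y : X}, y ≠ 1 → p ∣ Nat.card (K y)

variable {p : ℕ} {X : Type*} [Group X]

/-- `y` is a nontrivial `p`-element. -/
def PEl (p : ℕ) (y : X) : Prop := y ≠ 1 ∧ ∃ n, y ^ p ^ n = 1

/-- P1 -/
theorem Part.mem_symm (P : Part p X) {u v : X} (hu : u ≠ 1) (hv : v ≠ 1) (h : u ∈ P.K v) :
    v ∈ P.K u := by
  rw [P.eq_of_mem hv hu h]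
  exact P.self v

private theorem PB_lt (P : Part p X) [Finite X] {u v : X} (hu : u ≠ 1)
    (hc : u * v = v * u) (hn : v ∉ P.K u) : ¬ orderOf v < orderOf u := by
  intro hlt
  have hv0 : 0 < orderOf v := orderOf_pos v
  have hw : (u * v) ^ orderOf v = u ^ orderOf v := by
    rw [Commute.mul_pow hc, pow_orderOf_eq_one, mul_one]
  have hne : u ^ orderOf v ≠ 1 := pow_ne_one_of_lt_orderOf hv0.ne' hlt
  have huv : u * v ≠ 1 := by
    intro h
    apply hn
    rw [(eq_inv_of_mul_eq_one_right h)]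
    exact inv_mem (P.self u)
  have h1 : P.K (u ^ orderOf v) = P.K u := P.eq_of_mem hu hne (pow_mem (P.self u) _)
  have h2 : P.K (u ^ orderOf v) = P.K (u * v) := by
    refine P.eq_of_mem huv hne ?_
    rw [← hw]
    exact pow_mem (P.self (u * v)) _
  have h3 : u * v ∈ P.K u := by
    rw [← h1, h2]
    exact P.self _
  exact hn ((P.K u).mul_mem_cancel_left (P.self u) |>.1 h3)

private theorem PB_ord (P : Part p X) [Finite X] {u v : X} (hu : u ≠ 1) (hv : v ≠ 1)
    (hc : u * v = v * u) (hn : v ∉ P.K u) : orderOf u = orderOf v := by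
  have h1 := PB_lt P hu hc hn
  have h2 := PB_lt P hv hc.symm (fun h => hn (P.mem_symm hu hv h))
  omega

/-- P2: commuting elements of different components have the same prime order.  (If
`orderOf v < orderOf u` then `(u * v) ^ orderOf v = u ^ orderOf v ≠ 1` lies in `K u` and in
`K (u * v)`, so `u * v ∈ K u`; if the common order is `n = q m`, `1 < q, m < n`, compare `u ^ q`
with `v`.) -/
theorem Part.prime_of_commute (P : Part p X) [Finite X] {u v : X} (hu : u ≠ 1) (hv : v ≠ 1)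
    (hc : u * v = v * u) (hn : v ∉ P.K u) : orderOf u = orderOf v ∧ (orderOf u).Prime := by
  have h0 := PB_ord P hu hv hc hn
  refine ⟨h0, ?_⟩
  by_contra hnp
  have hpos : 0 < orderOf u := orderOf_pos u
  have h1 : orderOf u ≠ 1 := fun h => hu (orderOf_eq_one_iff.1 h)
  have h2 : 2 ≤ orderOf u := by omega
  have hq : (orderOf u).minFac.Prime := Nat.minFac_prime h1
  have hqd : (orderOf u).minFac ∣ orderOf u := Nat.minFac_dvd _
  have hqlt : (orderOf u).minFac < orderOf u :=
    lt_of_le_of_ne (Nat.le_of_dvd hpos hqd) fun h => hnp (h ▸ hq)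
  have hne : u ^ (orderOf u).minFac ≠ 1 := pow_ne_one_of_lt_orderOf hq.pos.ne' hqlt
  have hK : P.K (u ^ (orderOf u).minFac) = P.K u :=
    P.eq_of_mem hu hne (pow_mem (P.self u) _)
  have h3 := PB_ord P hne hv (Commute.pow_left hc _) (by rw [hK]; exact hn)
  rw [orderOf_pow_of_dvd hq.pos.ne' hqd, ← h0] at h3
  have := Nat.div_lt_self hpos hq.one_lt
  omega

/-- P3: by P2 for `y` and `c` (if `c = 1` it lies in `K y`), the common order is prime and `y` is a
`p`-element. -/
theorem Part.pow_eq_one (P : Part p X) [Finite X] [Fact p.Prime] {y c : X} (hy : PEl p y)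
    (hc : c * y = y * c) (hn : c ∉ P.K y) : y ^ p = 1 ∧ c ^ p = 1 := by
  obtain ⟨hy1, n, hyn⟩ := hy
  have hc1 : c ≠ 1 := fun h => hn (h ▸ one_mem _)
  obtain ⟨h1, h2⟩ := P.prime_of_commute hy1 hc1 hc.symm hn
  have h3 : orderOf y = p :=
    (Nat.prime_dvd_prime_iff_eq h2 Fact.out).1 (h2.dvd_of_dvd_pow (orderOf_dvd_of_pow_eq_one hyn))
  refine ⟨?_, ?_⟩
  · rw [← h3]
    exact pow_orderOf_eq_one y
  · rw [← h3, h1]
    exact pow_orderOf_eq_one c

/-- P4: if `e ≠ 1` then `K e = K y`, P2 for `e` and `c`, and P3. -/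
theorem Part.pow_eq_one_of_mem (P : Part p X) [Finite X] [Fact p.Prime] {y c e : X}
    (hy : PEl p y) (hc : c * y = y * c) (hn : c ∉ P.K y) (he : e ∈ P.K y)
    (hec : e * c = c * e) : e ^ p = 1 := by
  by_cases he1 : e = 1
  · rw [he1, one_pow]
  · have hc1 : c ≠ 1 := fun h => hn (h ▸ one_mem _)
    have hK := P.eq_of_mem hy.1 he1 he
    obtain ⟨h1, h2⟩ := P.prime_of_commute he1 hc1 hec (by rw [hK]; exact hn)
    have h3 : orderOf c ∣ p := orderOf_dvd_of_pow_eq_one (P.pow_eq_one hy hc hn).2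
    rw [← h1] at h3
    exact orderOf_dvd_iff_pow_eq_one.1 h3

/-- P5 -/
theorem Part.le_centralizer (P : Part p X) {y : X} (hy : PEl p y) :
    P.K y ≤ centralizer {y} := by
  intro u hu
  rw [mem_centralizer_iff]
  intro h hh
  rw [Set.mem_singleton_iff] at hh
  subst hh
  exact (P.central hy.1 hy.2 u hu).symm

/-- P6: `K y` is normal in the centralizer of `y`. -/
theorem Part.conj_mem (P : Part p X) {y c u : X} (hy : y ≠ 1) (hc : c * y = y * c)
    (hu : u ∈ P.K y) : c * u * c⁻¹ ∈ P.K y := by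
  have h1 : c * y * c⁻¹ = y := by rw [hc, mul_inv_cancel_right]
  have h2 := (P.conj (g := c) hy (c * u * c⁻¹)).2
  rw [h1] at h2
  refine h2 ?_
  have h3 : c⁻¹ * (c * u * c⁻¹) * c = u := by group
  rw [h3]
  exact hu

/-- P7: if `y` is a `p`-element, some `c` commutes with `y` and is outside `K y`, and `K y` is not
a `p`-group, then `|C(y)| = p |K y|`.  (`index_dvd_prime` for `C = C(y)`,
`E = (K y).subgroupOf C(y)`, normal by P6, with P3, P4, `Part.central`; a prime `r ≠ p` divides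
`|K y|`.  For `h2`: a `p`-element `w ≠ 1` of `K y` has `K w = K y`.) -/
theorem Part.card_centralizer (P : Part p X) [Finite X] [Fact p.Prime] {y c : X} (hy : PEl p y)
    (hc : c * y = y * c) (hn : c ∉ P.K y) (hnp : ∀ n, Nat.card (P.K y) ≠ p ^ n) :
    Nat.card (centralizer {y} : Subgroup X) = p * Nat.card (P.K y) := by
  have hp : p.Prime := Fact.out
  have hCc : ∀ d : X, d ∈ centralizer ({y} : Set X) ↔ d * y = y * d := by
    intro d
    rw [mem_centralizer_iff]
    constructor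
    · intro h
      exact (h y rfl).symm
    · intro h z hz
      rw [Set.mem_singleton_iff.1 hz]
      exact h.symm
  have hle := P.le_centralizer hy
  have hnorm : ((P.K y).subgroupOf (centralizer ({y} : Set X))).Normal := by
    refine ⟨fun n hn' g => ?_⟩
    rw [mem_subgroupOf] at hn' ⊢
    exact P.conj_mem hy.1 ((hCc _).1 g.2) hn'
  have hcard : Nat.card ((P.K y).subgroupOf (centralizer ({y} : Set X))) = Nat.card (P.K y) :=
    Nat.card_congr (subgroupOfEquivOfLe hle).toEquiv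
  obtain ⟨r, hr, hrp, hrd⟩ : ∃ r : ℕ, r.Prime ∧ r ≠ p ∧ r ∣ Nat.card (P.K y) := by
    by_contra hno
    refine hnp _ (Nat.eq_prime_pow_of_unique_prime_dvd (n := Nat.card (P.K y)) (p := p)
      Nat.card_pos.ne' fun {d} hd1 hd2 => ?_)
    by_contra hne
    exact hno ⟨d, hd1, hne, hd2⟩
  have : Fact r.Prime := ⟨hr⟩
  have hidx := index_dvd_prime (p := p) (r := r) hrp
    ((P.K y).subgroupOf (centralizer ({y} : Set X)))
    (fun d hd => by
      rw [mem_subgroupOf] at hd
      exact Subtype.ext ((P.pow_eq_one hy ((hCc _).1 d.2) hd).2))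
    (fun w hw hwn e he => by
      rw [mem_subgroupOf] at hw he
      obtain ⟨n, hwn⟩ := hwn
      by_cases hw1 : w = 1
      · rw [hw1, mul_one, one_mul]
      · have hw1' : (w : X) ≠ 1 := fun h => hw1 (Subtype.ext h)
        have hK := P.eq_of_mem hy.1 hw1' hw
        refine Subtype.ext (P.central hw1' ⟨n, ?_⟩ _ (by rw [hK]; exact he))
        exact congrArg Subtype.val hwn)
    (fun d hd e he hed => by
      rw [mem_subgroupOf] at hd he
      exact Subtype.ext (P.pow_eq_one_of_mem hy ((hCc _).1 d.2) hd he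
        (congrArg Subtype.val hed)))
    (by rw [hcard]; exact hrd)
  have hidx1 : ((P.K y).subgroupOf (centralizer ({y} : Set X))).index ≠ 1 := by
    intro h
    rw [index_eq_one] at h
    have h1 : (⟨c, (hCc c).2 hc⟩ : centralizer ({y} : Set X)) ∈
        (P.K y).subgroupOf (centralizer ({y} : Set X)) := by
      rw [h]
      exact mem_top _
    rw [mem_subgroupOf] at h1
    exact hn h1
  have hidx2 := ((Nat.dvd_prime hp).1 hidx).resolve_left hidx1
  have h2 := card_mul_index ((P.K y).subgroupOf (centralizer ({y} : Set X)))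
  rw [hcard, hidx2, mul_comm] at h2
  exact h2.symm

/-- P8: the `p`-elements of `K y` form a subgroup of order the `p`-part of `|K y|`.  (They are
central in `K y` (if `w ≠ 1` is one, `K w = K y`), so every Sylow `p`-subgroup of `K y` is central,
hence normal and unique, and contains them all.) -/
theorem Part.exists_pPart (P : Part p X) [Finite X] [Fact p.Prime] {y : X} (hy : y ≠ 1) :
    ∃ Q : Subgroup X, (∀ u, u ∈ Q ↔ u ∈ P.K y ∧ ∃ n, u ^ p ^ n = 1) ∧
      Nat.card Q = p ^ (Nat.card (P.K y)).factorization p := by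
  obtain ⟨T⟩ : Nonempty (Sylow p (P.K y)) := inferInstance
  refine ⟨(T : Subgroup (P.K y)).map (P.K y).subtype, fun u => ?_, ?_⟩
  · rw [mem_map]
    constructor
    · rintro ⟨x, hx, rfl⟩
      refine ⟨x.2, ?_⟩
      obtain ⟨n, hn⟩ := T.isPGroup' ⟨x, hx⟩
      refine ⟨n, ?_⟩
      have h1 : x ^ p ^ n = 1 := congrArg Subtype.val hn
      exact congrArg Subtype.val h1
    · rintro ⟨hu, n, hn⟩
      refine ⟨⟨u, hu⟩, ?_, rfl⟩
      have hpg : IsPGroup p (zpowers (⟨u, hu⟩ : P.K y)) := by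
        rintro ⟨z, hz⟩
        obtain ⟨i, rfl⟩ := mem_zpowers_iff.1 hz
        refine ⟨n, Subtype.ext ?_⟩
        show ((⟨u, hu⟩ : P.K y) ^ i) ^ p ^ n = 1
        rw [← zpow_natCast, ← zpow_mul, mul_comm, zpow_mul, zpow_natCast]
        have h1 : (⟨u, hu⟩ : P.K y) ^ p ^ n = 1 := Subtype.ext hn
        rw [h1, one_zpow]
      obtain ⟨Q, hQ⟩ := hpg.exists_le_sylow
      obtain ⟨g, hg⟩ := MulAction.exists_smul_eq (P.K y) Q T
      have h2 : (⟨u, hu⟩ : P.K y) ∈ (Q : Subgroup (P.K y)) := hQ (mem_zpowers _)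
      have h3 : g * (⟨u, hu⟩ : P.K y) * g⁻¹ ∈ (T : Subgroup (P.K y)) := by
        rw [← hg]
        exact smul_mem_pointwise_smul _ (MulAut.conj g) _ h2
      by_cases hu1 : u = 1
      · have h4 : (⟨u, hu⟩ : P.K y) = 1 := Subtype.ext hu1
        rw [h4]
        exact one_mem _
      · have hK := P.eq_of_mem hy hu1 hu
        have h5 : g * (⟨u, hu⟩ : P.K y) = (⟨u, hu⟩ : P.K y) * g :=
          Subtype.ext (P.central hu1 ⟨n, hn⟩ g (by rw [hK]; exact g.2))
        rwa [h5, mul_inv_cancel_right] at h3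
  · rw [card_map_of_injective (P.K y).subtype_injective, T.card_eq_multiplicity]

/-- P9: a proper subgroup misses a conjugacy class.  (`subsingleton_of_forall_fixed` of
`SylowCentral.lean` for the action on `X / H`.) -/
theorem eq_top_of_forall_conj_mem [Finite X] (H : Subgroup X)
    (h : ∀ x : X, ∃ g : X, g⁻¹ * x * g ∈ H) : H = ⊤ := by
  have h1 : Subsingleton (X ⧸ H) := by
    refine Pool.Agent.MP_7a7339_al.subsingleton_of_forall_fixed (G := X) fun x => ?_
    obtain ⟨g, hg⟩ := h x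
    refine ⟨(g : X ⧸ H), ?_⟩
    have h2 : ((x * g : X) : X ⧸ H) = (g : X ⧸ H) := by
      refine (QuotientGroup.eq.2 ?_).symm
      rw [← mul_assoc]
      exact hg
    exact h2
  rw [eq_top_iff]
  intro x _
  have h3 : ((1 : X) : X ⧸ H) = (x : X ⧸ H) := Subsingleton.elim _ _
  have h4 := QuotientGroup.eq.1 h3
  rwa [inv_one, one_mul] at h4

/-- P10: every component contains a nontrivial `p`-element. -/
theorem Part.exists_pEl (P : Part p X) [Finite X] [Fact p.Prime] {x : X} (hx : x ≠ 1) :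
    ∃ y, PEl p y ∧ y ∈ P.K x ∧ P.K y = P.K x := by
  have hp : p.Prime := Fact.out
  obtain ⟨y, hy⟩ := exists_prime_orderOf_dvd_card' p (P.dvd hx)
  have hy1 : (y : X) ≠ 1 := by
    intro h
    have h1 : y = 1 := Subtype.ext h
    rw [h1, orderOf_one] at hy
    exact hp.one_lt.ne hy
  refine ⟨y, ⟨hy1, 1, ?_⟩, y.2, P.eq_of_mem hx hy1 y.2⟩
  have h2 : y ^ p = 1 := orderOf_dvd_iff_pow_eq_one.1 hy.dvd
  rw [pow_one]
  exact congrArg Subtype.val h2

/-- P11: every nontrivial `p`-element is conjugate to an element of a given Sylow subgroup. -/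
theorem exists_conj_mem_sylow [Finite X] [Fact p.Prime] (S : Sylow p X) {y : X}
    (hy : ∃ n, y ^ p ^ n = 1) : ∃ g : X, g⁻¹ * y * g ∈ S := by
  obtain ⟨n, hn⟩ := hy
  have hpg : IsPGroup p (zpowers y) := by
    rintro ⟨z, hz⟩
    obtain ⟨i, rfl⟩ := mem_zpowers_iff.1 hz
    refine ⟨n, Subtype.ext ?_⟩
    show (y ^ i) ^ p ^ n = 1
    rw [← zpow_natCast, ← zpow_mul, mul_comm, zpow_mul, zpow_natCast, hn, one_zpow]
  obtain ⟨Q, hQ⟩ := hpg.exists_le_sylow
  obtain ⟨g, hg⟩ := MulAction.exists_smul_eq X Q S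
  refine ⟨g⁻¹, ?_⟩
  rw [inv_inv, ← hg]
  exact smul_mem_pointwise_smul _ (MulAut.conj g) _ (hQ (mem_zpowers y))

/-- P12: a proper component does not contain a Sylow `p`-subgroup.  (By P10, P11 every `x ≠ 1` has a
`p`-element `u ≠ 1` in `K x = K u` with `g⁻¹ u g ∈ S ≤ K y`, so `g⁻¹ x g ∈ K (g⁻¹ u g) = K y`;
P9.) -/
theorem Part.not_le (P : Part p X) [Finite X] [Fact p.Prime] (hpX : p ∣ Nat.card X) {y : X}
    (hy : y ≠ 1) (hK : P.K y ≠ ⊤) (S : Sylow p X) : ¬ (S : Subgroup X) ≤ P.K y := by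
  have _ := hpX
  intro hle
  refine hK (eq_top_of_forall_conj_mem _ fun x => ?_)
  by_cases hx : x = 1
  · refine ⟨1, ?_⟩
    rw [hx, mul_one, mul_one, inv_one]
    exact one_mem _
  · obtain ⟨u, hu, _, hKu⟩ := P.exists_pEl hx
    obtain ⟨g, hg⟩ := exists_conj_mem_sylow S hu.2
    refine ⟨g, ?_⟩
    have h1 : g⁻¹ * u * g ≠ 1 := by
      intro h
      apply hu.1
      have h2 : u = g * (g⁻¹ * u * g) * g⁻¹ := by group
      rw [h2, h, mul_one, mul_inv_cancel]
    have h2 : P.K (g⁻¹ * u * g) = P.K y := P.eq_of_mem hy h1 (hle hg)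
    have h3 := (P.conj (g := g⁻¹) hu.1 (g⁻¹ * x * g)).2
    rw [inv_inv, h2] at h3
    refine h3 ?_
    have h4 : g * (g⁻¹ * x * g) * g⁻¹ = x := by group
    rw [h4, hKu]
    exact P.self x

/-- P13: otherwise a Sylow subgroup of `K y` is a Sylow subgroup of `X`. -/
theorem Part.factorization_lt (P : Part p X) [Finite X] [Fact p.Prime] (hpX : p ∣ Nat.card X)
    {y : X} (hy : y ≠ 1) (hK : P.K y ≠ ⊤) :
    (Nat.card (P.K y)).factorization p < (Nat.card X).factorization p := by
  have hp : p.Prime := Fact.out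
  by_contra hge
  obtain ⟨Q, hQ, hQc⟩ := P.exists_pPart hy
  have hpg : IsPGroup p Q := IsPGroup.of_card hQc
  obtain ⟨S, hS⟩ := hpg.exists_le_sylow
  have h1 : Q = (S : Subgroup X) := by
    refine eq_of_le_of_card_ge hS ?_
    rw [hQc, S.card_eq_multiplicity]
    exact Nat.pow_le_pow_right hp.pos (by omega)
  refine P.not_le hpX hy hK S ?_
  rw [← h1]
  exact fun u hu => ((hQ u).1 hu).1

end Pool.Agent.NCG
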