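import Pool.Agent.NCG.Count

set_option autoImplicit false

/-!
No finite group has a partition as in `Part` whose component orders are of type `i < k` while the
order of the group is of type `k` and divisible by `p`.
-/

namespace Pool.Agent.NCG

open Subgroup

variable {p : ℕ} {X : Type*} [Group X] {a b k : ℕ}

/-- The numerical hypotheses. -/
structure Sized (P : Part p X) (a b k : ℕ) : Prop where
  ha : 0 < a
  hab : a < b
  hc : Nat.Coprime a b
  hX : Ty a b p (Nat.card X) k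
  hK : ∀ y : X, y ≠ 1 → ∃ i, 1 ≤ i ∧ i < k ∧ Ty a b p (Nat.card (P.K y)) i
  hpX : p ∣ Nat.card X
  hk : 1 ≤ k

variable {P : Part p X}

/-- S1: `ty_dvd_sub` for `X`. -/
theorem Sized.dvd_sub (hs : Sized P a b k) : p ∣ b - a := by
  exact ty_dvd_sub hs.hab hs.hk hs.hX hs.hpX

private theorem SA_ne_top [Finite X] [Fact p.Prime] (hs : Sized P a b k) {y : X} (hy : y ≠ 1) :
    P.K y ≠ ⊤ := by
  intro h
  obtain ⟨i, hi1, hik, hTy⟩ := hs.hK y hy
  have h1 := ty_lt Fact.out hs.ha hs.hab hTy hs.hX hik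
  rw [h, Subgroup.card_top] at h1
  exact lt_irrefl _ h1

/-- S2: the type of a component is `< δ`, the `p`-part of its order is `p ^ i`, and it is not a
`p`-group.  (`δ = (b - a).factorization p`.  `|K y| < |X|` by `ty_lt`, so `K y ≠ ⊤` and
`Part.factorization_lt` applies.  If `δ ≤ i` then `ty_fact_ge` and `ty_fact_gt` (for `k > i ≥ δ`)
contradict it; so `i < δ`, `ty_fact_lt`, `ty_pow_lt`.) -/
theorem Sized.comp [Finite X] [Fact p.Prime] (hs : Sized P a b k) {y : X} (hy : y ≠ 1) :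
    ∃ i, 1 ≤ i ∧ i < (b - a).factorization p ∧ Ty a b p (Nat.card (P.K y)) i ∧
      (Nat.card (P.K y)).factorization p = i ∧ (∀ n, Nat.card (P.K y) ≠ p ^ n) := by
  have hp : p.Prime := Fact.out
  have hd := hs.dvd_sub
  obtain ⟨i, hi1, hik, hTy⟩ := hs.hK y hy
  have hK := SA_ne_top hs hy
  have hfl := Part.factorization_lt P hs.hpX hy hK
  have hiδ : i < (b - a).factorization p := by
    by_contra hcon
    have hle : (b - a).factorization p ≤ i := Nat.le_of_not_lt hcon
    have h1 := ty_fact_ge hp hs.ha hs.hab hs.hc hd hTy hle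
    have h2 := ty_fact_gt hp hs.ha hs.hab hs.hc hd hs.hX (lt_of_le_of_lt hle hik)
    omega
  have hfi := ty_fact_lt hp hs.ha hs.hab hs.hc hd hTy hiδ
  refine ⟨i, hi1, hiδ, hTy, hfi, ?_⟩
  intro n hn
  have h3 := ty_pow_lt hp hs.ha hs.hab hi1 hTy
  rw [hn, hp.factorization_pow, Finsupp.single_eq_same] at hfi
  rw [hn, hfi] at h3
  exact lt_irrefl _ h3

/-- S3: the centre of a Sylow subgroup.  (`z ≠ 1` in the centre of `S`; `c` from `Part.not_le`;
`Part.card_centralizer`; `S ≤ C(z)` gives `factorization X ≤ factorization (p |K z|)`, the other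
inequality is `Part.factorization_lt`.) -/
theorem Sized.exists_center [Finite X] [Fact p.Prime] (hs : Sized P a b k) (S : Sylow p X) :
    ∃ z c : X, PEl p z ∧ z ∈ S ∧ (∀ s ∈ S, s * z = z * s) ∧ c ∈ S ∧ c ∉ P.K z ∧
      Nat.card (centralizer {z} : Subgroup X) = p * Nat.card (P.K z) ∧
      (Nat.card X).factorization p = (Nat.card (P.K z)).factorization p + 1 := by
  have hp : p.Prime := Fact.out
  have hnt : Nontrivial S := by
    have h1 : p ∣ Nat.card S := S.dvd_card_of_dvd_card hs.hpX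
    rw [← Finite.one_lt_card_iff_nontrivial]
    exact lt_of_lt_of_le hp.one_lt (Nat.le_of_dvd Nat.card_pos h1)
  have hSp : IsPGroup p S := S.isPGroup'
  have hct := hSp.center_nontrivial
  obtain ⟨⟨z, hzc⟩, hz1⟩ := exists_ne (1 : Subgroup.center S)
  have hz1' : (z : X) ≠ 1 := by
    intro h
    apply hz1
    apply Subtype.ext
    exact Subtype.ext h
  have hzp : PEl p (z : X) := by
    refine ⟨hz1', ?_⟩
    obtain ⟨n, hn⟩ := hSp z
    exact ⟨n, by rw [← Subgroup.coe_pow, hn, Subgroup.coe_one]⟩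
  have hzS : ∀ s ∈ S, s * (z : X) = z * s := by
    intro s hsS
    have h2 := Subgroup.mem_center_iff.1 hzc ⟨s, hsS⟩
    exact congrArg Subtype.val h2
  have hK := SA_ne_top hs hz1'
  have hnl := Part.not_le P hs.hpX hz1' hK S
  obtain ⟨c, hcS, hcK⟩ := SetLike.not_le_iff_exists.1 hnl
  obtain ⟨i, _, _, _, _, hnp⟩ := hs.comp hz1'
  have hcz := Part.card_centralizer P hzp (hzS c hcS) hcK hnp
  refine ⟨z, c, hzp, z.2, hzS, hcS, hcK, hcz, ?_⟩
  have hlt := Part.factorization_lt P hs.hpX hz1' hK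
  have hSC : (S : Subgroup X) ≤ centralizer {(z : X)} := by
    intro s hsS
    rw [Subgroup.mem_centralizer_singleton_iff]
    exact hzS s hsS
  have hdv : Nat.card S ∣ Nat.card (centralizer {(z : X)} : Subgroup X) :=
    Subgroup.card_dvd_of_le hSC
  have hpos : Nat.card (P.K (z : X)) ≠ 0 := Nat.card_pos.ne'
  rw [Sylow.card_eq_multiplicity, hcz] at hdv
  have h3 := (hp.pow_dvd_iff_le_factorization (Nat.mul_ne_zero hp.ne_zero hpos)).1 hdv
  rw [Nat.factorization_mul hp.ne_zero hpos, Finsupp.add_apply, hp.factorization_self] at h3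
  omega

/-- S4: `δ ≥ 2` and `K z` has type `δ - 1`.  (Let `i` be the type of `K z`, `1 ≤ i < δ`, so
`factorization X = i + 1 ≤ δ`.  `k < δ`: `ty_fact_lt` gives `k = i + 1`, and `ty_step_false`
(`|K z|` divides `|X|`).  `k = δ`: `ty_fact_ge` gives `i + 1 = δ = k`, again `ty_step_false`.
`k > δ`: `ty_fact_gt` gives `i = δ - 1`.) -/
theorem Sized.type_center [Finite X] [Fact p.Prime] (hs : Sized P a b k) {z : X} (hz : PEl p z)
    (h : (Nat.card X).factorization p = (Nat.card (P.K z)).factorization p + 1) :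
    2 ≤ (b - a).factorization p ∧ Ty a b p (Nat.card (P.K z)) ((b - a).factorization p - 1) := by
  have hp : p.Prime := Fact.out
  have hd := hs.dvd_sub
  obtain ⟨i, hi1, hiδ, hTy, hfi, _⟩ := hs.comp hz.1
  rw [hfi] at h
  have hdv : Nat.card (P.K z) ∣ Nat.card X := Subgroup.card_subgroup_dvd_card _
  rcases lt_trichotomy k ((b - a).factorization p) with hk | hk | hk
  · exfalso
    have h1 := ty_fact_lt hp hs.ha hs.hab hs.hc hd hs.hX hk
    have h2 : k = i + 1 := by omega
    have h3 := hs.hX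
    rw [h2] at h3
    exact ty_step_false hp hs.ha hs.hab hi1 hTy h3 hdv
  · exfalso
    have h1 := ty_fact_ge hp hs.ha hs.hab hs.hc hd hs.hX hk.ge
    have h2 : k = i + 1 := by omega
    have h3 := hs.hX
    rw [h2] at h3
    exact ty_step_false hp hs.ha hs.hab hi1 hTy h3 hdv
  · have h1 := ty_fact_gt hp hs.ha hs.hab hs.hc hd hs.hX hk
    have h2 : (b - a).factorization p - 1 = i := by omega
    rw [h2]
    exact ⟨by omega, hTy⟩

/-- S5: `z ∉ K y` by `Part.mem_symm`; `Part.card_centralizer` with `c = z`, `Sized.comp`. -/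
theorem Sized.card_centralizer [Finite X] [Fact p.Prime] (hs : Sized P a b k) {y z : X}
    (hz : PEl p z) (hy : PEl p y) (hzy : z * y = y * z) (hn : y ∉ P.K z) :
    Nat.card (centralizer {y} : Subgroup X) = p * Nat.card (P.K y) := by
  obtain ⟨i, _, _, _, _, hnp⟩ := hs.comp hy.1
  exact Part.card_centralizer P hy hzy (fun h => hn (P.mem_symm hz.1 hy.1 h)) hnp

/-- S6: `|S ⊓ C(y)| ≤ p ^ 2` for `y ∈ S` outside `K z`.  (`D = S ⊓ C(y) ⊓ K z` meets `K y`
trivially, so `|D| ≤ p` by `Part.card_le` and S5; `Part.card_le_mul` for `S ⊓ C(y)`.) -/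
theorem Sized.card_inf_le [Finite X] [Fact p.Prime] (hs : Sized P a b k) (S : Subgroup X)
    {y z : X} (hz : PEl p z) (hS : ∀ s ∈ S, s * z = z * s) (hzS : z ∈ S) (hy : PEl p y)
    (hyS : y ∈ S) (hn : y ∉ P.K z)
    (hcz : Nat.card (centralizer {z} : Subgroup X) = p * Nat.card (P.K z)) :
    Nat.card (S ⊓ centralizer {y} : Subgroup X) ≤ p ^ 2 := by
  have hcy := hs.card_centralizer hz hy (hS y hyS).symm hn
  have h1 : Nat.card ((S ⊓ centralizer {y}) ⊓ P.K z : Subgroup X) ≤ p := by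
    refine Part.card_le P _ (inf_le_left.trans inf_le_right) (P.le_centralizer hy) ?_ hcy
    rw [eq_bot_iff]
    intro w hw
    obtain ⟨⟨_, hwz⟩, hwy⟩ := hw
    rw [Subgroup.mem_bot]
    by_contra hw1
    apply hn
    rw [← P.eq_of_mem hz.1 hw1 hwz, P.eq_of_mem hy.1 hw1 hwy]
    exact P.self y
  have h2 := Part.card_le_mul P hz (S ⊓ centralizer {y}) (by
    intro s hsS
    rw [Subgroup.mem_centralizer_singleton_iff]
    exact hS s hsS.1) hcz
  refine h2.trans ?_
  rw [pow_two]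
  exact Nat.mul_le_mul_left p h1

private theorem SE_zp [Fact p.Prime] {y : X} {n : ℕ} (h : y ^ p ^ n = 1) :
    IsPGroup p (Subgroup.zpowers y) := by
  rintro ⟨w, hw⟩
  obtain ⟨m, rfl⟩ := Subgroup.mem_zpowers_iff.1 hw
  refine ⟨n, ?_⟩
  apply Subtype.ext
  show (y ^ m) ^ p ^ n = 1
  rw [← zpow_natCast, ← zpow_mul, mul_comm, zpow_mul, zpow_natCast, h, one_zpow]

private theorem SE_syl [Finite X] [Fact p.Prime] (y : X) (hy : ∃ n, y ^ p ^ n = 1) :
    ∃ T : Subgroup X, T ≤ centralizer {y} ∧ IsPGroup p T ∧ y ∈ T ∧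
      Nat.card T = p ^ (Nat.card (centralizer {y} : Subgroup X)).factorization p := by
  obtain ⟨n, hn⟩ := hy
  have hyC : y ∈ (centralizer {y} : Subgroup X) := by
    rw [Subgroup.mem_centralizer_singleton_iff]
  let yc : (centralizer {y} : Subgroup X) := ⟨y, hyC⟩
  have hycp : IsPGroup p (Subgroup.zpowers yc) := SE_zp (n := n) (Subtype.ext hn)
  have hnorm : (Subgroup.zpowers yc).Normal := by
    refine ⟨?_⟩
    rintro w hw ⟨g, hg⟩
    obtain ⟨m, rfl⟩ := Subgroup.mem_zpowers_iff.1 hw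
    rw [Subgroup.mem_centralizer_singleton_iff] at hg
    have h1 : (⟨g, by rw [Subgroup.mem_centralizer_singleton_iff]; exact hg⟩ :
        (centralizer {y} : Subgroup X)) * yc = yc * ⟨g, by
          rw [Subgroup.mem_centralizer_singleton_iff]; exact hg⟩ := Subtype.ext hg
    have h2 := (Commute.zpow_right (show Commute _ _ from h1) m)
    rw [h2.eq, mul_inv_cancel_right]
    exact hw
  obtain ⟨Q, hQ⟩ := hycp.exists_le_sylow
  refine ⟨(Q : Subgroup (centralizer {y} : Subgroup X)).map (Subgroup.subtype _), ?_, ?_, ?_, ?_⟩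
  · rintro _ ⟨w, _, rfl⟩
    exact w.2
  · exact Q.isPGroup'.map _
  · exact ⟨yc, hQ (Subgroup.mem_zpowers yc), rfl⟩
  · rw [← Sylow.card_eq_multiplicity Q]
    exact Subgroup.card_map_of_injective (Subgroup.subtype_injective _)

private theorem SE_conj [Finite X] [Fact p.Prime] (S : Sylow p X) (T : Subgroup X)
    (hT : IsPGroup p T) : ∃ g : X, ∀ t ∈ T, g⁻¹ * t * g ∈ S := by
  obtain ⟨Q, hQ⟩ := hT.exists_le_sylow
  obtain ⟨g, hg⟩ := MulAction.exists_smul_eq X S Q
  refine ⟨g, fun t ht => ?_⟩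
  have h1 : t ∈ Q := hQ ht
  rw [← hg] at h1
  have h2 : t ∈ (g • S : Sylow p X).toSubgroup := h1
  rw [Sylow.coe_subgroup_smul, Subgroup.mem_pointwise_smul_iff_inv_smul_mem] at h2
  rw [← MulAut.conj.map_inv] at h2
  have h3 : g⁻¹ * t * (g⁻¹)⁻¹ ∈ (S : Subgroup X) := h2
  rw [inv_inv] at h3
  exact h3

/-- S7: a `p`-element outside the conjugates of `K z` lies in a component of type `1`.  (Let `T` be
a Sylow `p`-subgroup of `C(y)`, mapped to `X`; it contains `y`, and `g⁻¹ T g ≤ S` for some `g`.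
`y' = g⁻¹ y g ∈ S`, `y' ∉ K z`, `g⁻¹ T g ≤ S ⊓ C(y')` has order `≤ p ^ 2` by S6, so
`factorization |C(y)| ≤ 2`; `|C(y)| = |C(y')| = p |K y'| = p |K y|` by S5 and `Part.card_conj`;
`factorization |K y| ≥ 1` by `Sized.comp`.) -/
theorem Sized.type_one [Finite X] [Fact p.Prime] (hs : Sized P a b k) (S : Sylow p X)
    {y z : X} (hz : PEl p z) (hS : ∀ s ∈ S, s * z = z * s) (hzS : z ∈ S) (hy : PEl p y)
    (hn : ¬ P.T0 z y)
    (hcz : Nat.card (centralizer {z} : Subgroup X) = p * Nat.card (P.K z)) :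
    Nat.card (centralizer {y} : Subgroup X) = p * Nat.card (P.K y) ∧
      (Nat.card (P.K y)).factorization p = 1 := by
  have hp : p.Prime := Fact.out
  obtain ⟨T, hTC, hTp, hyT, hTc⟩ := SE_syl (p := p) y hy.2
  obtain ⟨g, hg⟩ := SE_conj S T hTp
  have hy'S : g⁻¹ * y * g ∈ S := hg y hyT
  have hy'K : g⁻¹ * y * g ∉ P.K z := fun h => hn ⟨g, h⟩
  have hconj : PEl p (g⁻¹ * y * g) := by
    refine ⟨?_, ?_⟩
    · intro h
      apply hy.1
      have h2 : y = g * (g⁻¹ * y * g) * g⁻¹ := by group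
      rw [h2, h]; group
    · obtain ⟨n, hn'⟩ := hy.2
      refine ⟨n, ?_⟩
      have h2 : g⁻¹ * y * g = g⁻¹ * y * (g⁻¹)⁻¹ := by rw [inv_inv]
      rw [h2, conj_pow, hn']; group
  have h6 := hs.card_inf_le (S : Subgroup X) hz hS hzS hconj hy'S hy'K hcz
  have h5 := hs.card_centralizer hz hconj (hS _ hy'S).symm hy'K
  obtain ⟨hc1, hc2⟩ := P.card_conj hy.1 g⁻¹
  rw [inv_inv] at hc1 hc2
  rw [hc1, hc2] at h5
  have hle : Nat.card T ≤ Nat.card ((S : Subgroup X) ⊓ centralizer {g⁻¹ * y * g} : Subgroup X) := by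
    refine Nat.card_le_card_of_injective
      (fun t : T => (⟨g⁻¹ * t.1 * g, ?_⟩ : ((S : Subgroup X) ⊓ centralizer {g⁻¹ * y * g} :
        Subgroup X))) ?_
    · refine ⟨hg t.1 t.2, ?_⟩
      show g⁻¹ * t.1 * g ∈ (centralizer {g⁻¹ * y * g} : Subgroup X)
      rw [Subgroup.mem_centralizer_singleton_iff]
      have h7 := hTC t.2
      rw [Subgroup.mem_centralizer_singleton_iff] at h7
      calc g⁻¹ * t.1 * g * (g⁻¹ * y * g) = g⁻¹ * (t.1 * y) * g := by group
        _ = g⁻¹ * (y * t.1) * g := by rw [h7]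
        _ = g⁻¹ * y * g * (g⁻¹ * t.1 * g) := by group
    · intro s t hst
      have h8 : g⁻¹ * s.1 * g = g⁻¹ * t.1 * g := congrArg Subtype.val hst
      apply Subtype.ext
      have h9 := mul_right_cancel h8
      exact mul_left_cancel h9
  have h10 : Nat.card T ≤ p ^ 2 := hle.trans h6
  rw [hTc] at h10
  have h11 := (Nat.pow_le_pow_iff_right hp.one_lt).1 h10
  have hpos : Nat.card (P.K y) ≠ 0 := Nat.card_pos.ne'
  rw [h5, Nat.factorization_mul hp.ne_zero hpos, Finsupp.add_apply, hp.factorization_self] at h11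
  obtain ⟨i, hi1, _, _, hfi, _⟩ := hs.comp hy.1
  exact ⟨h5, by omega⟩

private theorem SF_card [Fintype X] (H : Subgroup X) (s : Finset X) (hs : ∀ x, x ∈ s ↔ x ∈ H) :
    s.card = Nat.card H := by
  classical
  rw [Nat.card_eq_fintype_card, ← Fintype.card_coe]
  exact Fintype.card_congr (Equiv.subtypeEquivRight hs)

/-- S8: if `K z` is normal, a component of type `1` with an element commuting with `z` has at most
`p (p - 1)` elements.  (`D = {w ∈ K z : w` a `p`-element, `w y = y w}`, the intersection of the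
subgroup of `Part.exists_pPart` for `z` with `C(y)`, meets `K y` trivially, so `|D| ≤ p` by
`Part.card_le` and S5.  `K y` acts by conjugation on `D \ {1} ∋ z` (elements of `K y` commute with `y`
by `Part.central`); the orbit of `z` has at most `p - 1` elements, and its stabilizer
`K y ⊓ C(z)` consists of elements with `u ^ p = 1` (`Part.pow_eq_one`), so it is contained in the
subgroup of `Part.exists_pPart` for `y`, of order `p ^ 1`.) -/
theorem Sized.card_le_of_normal [Finite X] [Fact p.Prime] (hs : Sized P a b k)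
    {y z : X} (hz : PEl p z) (hy : PEl p y) (hzy : z * y = y * z) (hn : y ∉ P.K z)
    (hnorm : ∀ g u : X, u ∈ P.K z → g * u * g⁻¹ ∈ P.K z)
    (hf : (Nat.card (P.K y)).factorization p = 1) :
    Nat.card (P.K y) ≤ p * (p - 1) := by
  classical
  have hfin : Fintype X := Fintype.ofFinite X
  obtain ⟨Qz, hQz, -⟩ := P.exists_pPart hz.1
  obtain ⟨Qy, hQy, hQyc⟩ := P.exists_pPart hy.1
  rw [hf, pow_one] at hQyc
  have hcy := hs.card_centralizer hz hy hzy hn
  have hKne : P.K y ≠ P.K z := fun h => hn (h ▸ P.self y)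
  let D : Subgroup X := Qz ⊓ centralizer {y}
  have hD : Nat.card D ≤ p := by
    refine P.card_le D inf_le_right (P.le_centralizer hy) ?_ hcy
    rw [eq_bot_iff]
    intro u hu
    rw [Subgroup.mem_bot]
    by_contra h1
    have h2 : u ∈ P.K z := ((hQz u).1 hu.1.1).1
    have h3 : P.K u = P.K z := P.eq_of_mem hz.1 h1 h2
    have h4 : P.K u = P.K y := P.eq_of_mem hy.1 h1 hu.2
    exact hKne (h4.symm.trans h3)
  have hKf : Fintype (P.K y) := Fintype.ofFinite _
  let φ : P.K y → X := fun g => (g : X) * z * (g : X)⁻¹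
  have hfib : ∀ w ∈ Finset.univ.image φ, (Finset.univ.filter fun g => φ g = w).card ≤ p := by
    intro w hw
    obtain ⟨g0, -, hg0⟩ := Finset.mem_image.1 hw
    refine le_trans ?_ (((SF_card Qy (Finset.univ.filter (· ∈ Qy)) (fun x => by simp)).trans
      hQyc).le)
    refine Finset.card_le_card_of_injOn (fun g : P.K y => ((g0⁻¹ * g : P.K y) : X)) ?_ ?_
    · intro g hg
      have hg1 : φ g = w := by simpa using hg
      have h5 : (g : X) * z * (g : X)⁻¹ = (g0 : X) * z * (g0 : X)⁻¹ := hg1.trans hg0.symm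
      have h6 : ((g0 : X)⁻¹ * g) * z = z * ((g0 : X)⁻¹ * g) := by
        have h7 : (g : X) * z = (g0 : X) * z * (g0 : X)⁻¹ * g := by
          rw [← h5]
          group
        rw [mul_assoc, h7]
        group
      have h8 : ((g0 : X)⁻¹ * g) ∈ P.K y := (P.K y).mul_mem ((P.K y).inv_mem g0.2) g.2
      rw [Finset.coe_filter]
      refine ⟨Finset.mem_univ _, ?_⟩
      rw [hQy]
      refine ⟨h8, 1, ?_⟩
      rw [pow_one]
      by_cases h9 : ((g0 : X)⁻¹ * g) = 1
      · show ((g0 : X)⁻¹ * g) ^ p = 1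
        rw [h9, one_pow]
      · refine (P.pow_eq_one hz h6 fun h10 => ?_).2
        have h3 := P.eq_of_mem hz.1 h9 h10
        have h4 := P.eq_of_mem hy.1 h9 h8
        exact hKne (h4.symm.trans h3)
    · intro g _ g' _ hgg
      have h5 : ((g0⁻¹ * g : P.K y) : X) = ((g0⁻¹ * g' : P.K y) : X) := hgg
      exact mul_left_cancel (Subtype.ext h5)
  have himg : (Finset.univ.image φ).card ≤ p - 1 := by
    have h1 : Finset.univ.image φ ⊆ (Finset.univ.filter (· ∈ D)).erase 1 := by
      intro w hw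
      obtain ⟨g, -, hg⟩ := Finset.mem_image.1 hw
      have hgy : (g : X) * y = y * g := P.central hy.1 hy.2 g g.2
      rw [Finset.mem_erase, Finset.mem_filter]
      refine ⟨?_, Finset.mem_univ _, ?_, ?_⟩
      · intro h1
        apply hz.1
        have h2 : (g : X) * z * (g : X)⁻¹ = 1 := hg.trans h1
        rw [mul_inv_eq_one] at h2
        exact mul_eq_left.1 h2
      · rw [← hg]
        show (g : X) * z * (g : X)⁻¹ ∈ Qz
        rw [hQz]
        refine ⟨hnorm _ _ (P.self z), ?_⟩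
        obtain ⟨m, hm⟩ := hz.2
        refine ⟨m, ?_⟩
        rw [conj_pow, hm, mul_one, mul_inv_cancel]
      · rw [← hg]
        show (g : X) * z * (g : X)⁻¹ ∈ centralizer {y}
        rw [mem_centralizer_singleton_iff]
        have h2 : (g : X)⁻¹ * y = y * (g : X)⁻¹ := by
          rw [inv_mul_eq_iff_eq_mul, ← mul_assoc, hgy, mul_assoc, mul_inv_cancel, mul_one]
        calc (g : X) * z * (g : X)⁻¹ * y = (g : X) * z * ((g : X)⁻¹ * y) := by group
          _ = (g : X) * (z * y) * (g : X)⁻¹ := by rw [h2]; group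
          _ = ((g : X) * y) * z * (g : X)⁻¹ := by rw [hzy]; group
          _ = y * ((g : X) * z * (g : X)⁻¹) := by rw [hgy]; group
    refine (Finset.card_le_card h1).trans ?_
    rw [Finset.card_erase_of_mem (by simp [D.one_mem]),
      SF_card D (Finset.univ.filter (· ∈ D)) (fun x => by simp)]
    omega
  have h3 := Finset.card_le_mul_card_image (f := φ) Finset.univ p hfib
  rw [Nat.card_eq_fintype_card, ← Finset.card_univ]
  exact h3.trans (Nat.mul_le_mul_left p himg)

private theorem SG_aux [Finite X] [Fact p.Prime] (hs : Sized P a b k)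
    (h2 : (b - a).factorization p = 2) (S : Sylow p X) {y : X} (hy : PEl p y) (hyS : y ∈ S) :
    Nat.card (centralizer {y} : Subgroup X) = p * Nat.card (P.K y) := by
  obtain ⟨z, c, hz, hzS, hS, hcS, hcK, hcz, hfz⟩ := hs.exists_center S
  by_cases hn : y ∈ P.K z
  · have hKy : P.K y = P.K z := P.eq_of_mem hz.1 hy.1 hn
    obtain ⟨i, hi1, hi2, -, hi4, hi5⟩ := hs.comp hz.1
    have hi : i = 1 := by omega
    rw [hi] at hi4
    obtain ⟨Q, hQ, hQc⟩ := P.exists_pPart hz.1
    rw [hi4, pow_one] at hQc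
    have hzQ : z ∈ Q := (hQ z).2 ⟨P.self z, hz.2⟩
    have hyQ : y ∈ Q := (hQ y).2 ⟨hn, hy.2⟩
    have h3 : (⟨y, hyQ⟩ : Q) ∈ Subgroup.zpowers (⟨z, hzQ⟩ : Q) :=
      mem_zpowers_of_prime_card hQc fun h => hz.1 (congrArg Subtype.val h)
    obtain ⟨m, hm⟩ := Subgroup.mem_zpowers_iff.1 h3
    have hm' : z ^ m = y := congrArg Subtype.val hm
    have hcy : c * y = y * c := by
      rw [← hm']
      exact (Commute.zpow_right (hS c hcS) m).eq
    refine P.card_centralizer hy hcy ?_ ?_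
    · rw [hKy]
      exact hcK
    · rw [hKy]
      exact hi5
  · exact hs.card_centralizer hz hy (hS y hyS).symm hn

/-- S9: the case `δ = 2`: all nontrivial `p`-elements have centralizers of order `p |K y|`.
(Take a Sylow subgroup `S`, `z`, `c` from S3; conjugate `y` into `S` (`exists_conj_mem_sylow`,
`Part.card_conj`).  If `y ∉ K z` use S5.  If `y ∈ K z` then `K y = K z`, and `y`, `z` lie in the
subgroup of `Part.exists_pPart`, of order `p ^ 1` (the type of `K z` is `1` as `1 ≤ i < 2`), so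
`y` is a power of `z`, `c` commutes with `y`, `c ∉ K y`: `Part.card_centralizer`.) -/
theorem Sized.two_centralizer [Finite X] [Fact p.Prime] (hs : Sized P a b k)
    (h2 : (b - a).factorization p = 2) {y : X} (hy : PEl p y) :
    Nat.card (centralizer {y} : Subgroup X) = p * Nat.card (P.K y) := by
  let S : Sylow p X := default
  obtain ⟨g, hg⟩ := exists_conj_mem_sylow S hy.2
  have hgy : g * (g⁻¹ * y * g) * g⁻¹ = y := by group
  have hy' : PEl p (g⁻¹ * y * g) := by
    refine ⟨fun h => hy.1 ?_, ?_⟩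
    · rw [← hgy, h, mul_one, mul_inv_cancel]
    · obtain ⟨m, hm⟩ := hy.2
      refine ⟨m, ?_⟩
      have h1 : (g⁻¹ * y * g) = g⁻¹ * y * (g⁻¹)⁻¹ := by rw [inv_inv]
      rw [h1, conj_pow, hm, mul_one, mul_inv_cancel]
  have h3 := SG_aux hs h2 S hy' hg
  obtain ⟨h4, h5⟩ := P.card_conj hy'.1 g
  rw [hgy] at h4 h5
  rw [h4, h5]
  exact h3

/-- S10: all components have type `1`, hence the same order `B ≥ p + p ^ 2` (`ty_inj`,
`ty_one_lower`).  `double_count` for `A = {x ≠ 1}`, `B = {PEl}`, `R x y := y ∈ K x`, with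
`Part.card_pEl` and `Part.card_ne_one` (and `Part.mem_symm`): `(|X| - 1)(p - 1) = |PEl| (B - 1)`;
`exists_classes`: `|PEl| p B = κ |X|`; `num_two`. -/
theorem Sized.two_false [Finite X] [Fact p.Prime] (hs : Sized P a b k)
    (h2 : (b - a).factorization p = 2) : False := by
  have hp : p.Prime := Fact.out
  have hd := hs.dvd_sub
  have hX0 : 0 < Nat.card X := Nat.card_pos
  have h1X : 1 < Nat.card X := lt_of_lt_of_le hp.one_lt (Nat.le_of_dvd hX0 hs.hpX)
  have hnt : Nontrivial X := Finite.one_lt_card_iff_nontrivial.1 h1X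
  obtain ⟨y0, hy0⟩ := exists_ne (1 : X)
  have hty : ∀ y : X, y ≠ 1 → Ty a b p (Nat.card (P.K y)) 1 ∧
      (Nat.card (P.K y)).factorization p = 1 := by
    intro y hy
    obtain ⟨i, hi1, hi2, hi3, hi4, -⟩ := hs.comp hy
    have hi : i = 1 := by omega
    rw [hi] at hi3 hi4
    exact ⟨hi3, hi4⟩
  obtain ⟨B, hB⟩ : ∃ B, B = Nat.card (P.K y0) := ⟨_, rfl⟩
  have hKB : ∀ y : X, y ≠ 1 → Nat.card (P.K y) = B := fun y hy => by
    rw [hB]
    exact ty_inj hs.ha (hty y hy).1 (hty y0 hy0).1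
  have hBl : p + p ^ 2 ≤ B := by
    have h3 := ty_one_lower hp hs.ha hs.hab hs.hc hd (hty y0 hy0).1
    rwa [h2, ← hB] at h3
  have hBg : B < Nat.card X := by
    obtain ⟨i, -, hi2, hi3⟩ := hs.hK y0 hy0
    rw [hB]
    exact ty_lt hp hs.ha hs.hab hi3 hs.hX hi2
  have hdc := double_count {x : X | x ≠ 1} {y : X | PEl p y} (fun x y => y ∈ P.K x) (p - 1)
    (B - 1) (fun x hx => by
      have h3 := P.card_pEl (x := x) hx
      rw [(hty x hx).2, pow_one] at h3
      exact h3) (fun y hy => by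
      have h3 := P.card_ne_one hy.1
      rw [hKB y hy.1] at h3
      rw [← h3]
      exact Nat.card_congr (Equiv.subtypeEquivRight fun x =>
        ⟨fun h => ⟨h.1, P.mem_symm hy.1 h.1 h.2⟩, fun h => ⟨h.1, P.mem_symm h.1 hy.1 h.2⟩⟩))
  obtain ⟨κ, hκ⟩ := exists_classes {y : X | PEl p y} (fun y hy g => by
      refine ⟨fun h => hy.1 ?_, ?_⟩
      · have h3 : g * y * g⁻¹ = 1 := h
        rw [mul_inv_eq_one] at h3
        exact mul_eq_left.1 h3
      · obtain ⟨m, hm⟩ := hy.2
        exact ⟨m, by rw [conj_pow, hm, mul_one, mul_inv_cancel]⟩) (p * B) (fun y hy => by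
      rw [hs.two_centralizer h2 hy, hKB y hy.1])
  have hA : Nat.card ({x : X | x ≠ 1} : Set X) = Nat.card X - 1 := by
    classical
    have : Fintype X := Fintype.ofFinite X
    rw [Nat.card_eq_fintype_card, Nat.card_eq_fintype_card]
    exact (Fintype.card_subtype_compl (fun x : X => x = 1)).trans (by
      rw [Fintype.card_subtype_eq])
  refine num_two hp hBl hBg (κ := κ) ?_
  rw [hA] at hdc
  calc (p - 1) * (Nat.card X - 1) * (p * B) = ((Nat.card X - 1) * (p - 1)) * (p * B) := by ring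
    _ = (Nat.card ({y : X | PEl p y} : Set X) * (p * B)) * (B - 1) := by rw [hdc]; ring
    _ = κ * Nat.card X * (B - 1) := by rw [hκ]

/-- S11: the case `δ ≥ 3`: there is exactly one conjugate of `K z`.  (`A = |K z|`,
`n0`, `ν` from `Part.exists_conj_count`, `|C(z)| = p A`.  `X1 = {x ≠ 1, ¬ T0 z x}`,
`Ω = {y : PEl p y, ¬ T0 z y}`; `X0 + X1 + 1 = |X|`.  By S7 the elements of `Ω` have components
of type `1`, order `B`, `|C(y)| = p B`.  `double_count` (`R x y := y ∈ K x`, `Part.T0_congr`,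
`Part.exists_pEl` and S7 for the `p`-part `p` of `K x`): `|X1| (p - 1) = |Ω| (B - 1)`;
`exists_classes` (`Part.T0_conj`): `|Ω| p B = κ |X|`; `ty_gt_mul`; `num_three` gives `n0 = 1`.
If `Ω` is empty then `X1` is empty (`Part.exists_pEl`) and `n0 (A - 1) + 1 = n0 ν p A` gives
`n0 = 1`.) -/
theorem Sized.three_normal [Finite X] [Fact p.Prime] (hs : Sized P a b k)
    (h3 : 3 ≤ (b - a).factorization p) (S : Sylow p X)
    {z : X} (hz : PEl p z) (hS : ∀ s ∈ S, s * z = z * s) (hzS : z ∈ S)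
    (hcz : Nat.card (centralizer {z} : Subgroup X) = p * Nat.card (P.K z))
    (hA : Ty a b p (Nat.card (P.K z)) ((b - a).factorization p - 1)) :
    ∀ g u : X, u ∈ P.K z → g * u * g⁻¹ ∈ P.K z := by
  classical
  have hp : p.Prime := Fact.out
  have hfin : Fintype X := Fintype.ofFinite X
  obtain ⟨n0, ν, hg, hX0, hnorm⟩ := P.exists_conj_count hz.1
  refine hnorm ?_
  rw [hcz] at hg
  have hg0 : 0 < Nat.card X := Nat.card_pos
  have hsum : Nat.card {x : X // x ≠ 1 ∧ P.T0 z x} + Nat.card {x : X // x ≠ 1 ∧ ¬ P.T0 z x} + 1 =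
      Nat.card X := by
    rw [Nat.card_eq_fintype_card, Nat.card_eq_fintype_card, Nat.card_eq_fintype_card,
      Fintype.card_subtype, Fintype.card_subtype]
    have h4 := Finset.card_filter_add_card_filter_not
      (s := Finset.univ.filter fun x : X => x ≠ 1) (P.T0 z)
    rw [Finset.filter_filter, Finset.filter_filter] at h4
    have h5 : (Finset.univ.filter fun x : X => x ≠ 1).card = Fintype.card X - 1 := by
      rw [Finset.filter_ne' Finset.univ (1 : X), Finset.card_erase_of_mem (Finset.mem_univ _),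
        Finset.card_univ]
    have h6 : 0 < Fintype.card X := Fintype.card_pos
    omega
  by_cases hΩ : ∃ y : X, PEl p y ∧ ¬ P.T0 z y
  · obtain ⟨y0, hy0, hy0T⟩ := hΩ
    have hty : ∀ y : X, PEl p y → ¬ P.T0 z y →
        Nat.card (centralizer {y} : Subgroup X) = p * Nat.card (P.K y) ∧
        Ty a b p (Nat.card (P.K y)) 1 ∧ (Nat.card (P.K y)).factorization p = 1 := by
      intro y hy hyT
      obtain ⟨h4, h5⟩ := hs.type_one S hz hS hzS hy hyT hcz
      obtain ⟨i, -, -, hi3, hi4, -⟩ := hs.comp hy.1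
      have hi : i = 1 := by omega
      rw [hi] at hi3
      exact ⟨h4, hi3, h5⟩
    obtain ⟨B, hB⟩ : ∃ B, B = Nat.card (P.K y0) := ⟨_, rfl⟩
    have hKB : ∀ y : X, PEl p y → ¬ P.T0 z y → Nat.card (P.K y) = B := fun y hy hyT => by
      rw [hB]
      exact ty_inj hs.ha (hty y hy hyT).2.1 (hty y0 hy0 hy0T).2.1
    have hpB : p < B := by
      have h4 := ty_pow_lt hp hs.ha hs.hab le_rfl (hty y0 hy0 hy0T).2.1
      rwa [pow_one, ← hB] at h4
    have hAB : p * B < Nat.card (P.K z) := by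
      rw [hB]
      exact ty_gt_mul hp hs.ha hs.hab (by omega) hA (hty y0 hy0 hy0T).2.1
    have hdc := double_count {x : X | x ≠ 1 ∧ ¬ P.T0 z x} {y : X | PEl p y ∧ ¬ P.T0 z y}
      (fun x y => y ∈ P.K x) (p - 1) (B - 1) (fun x hx => by
        obtain ⟨y, hy, hyx, hKyx⟩ := P.exists_pEl hx.1
        have hyT : ¬ P.T0 z y := fun h => hx.2 ((P.T0_congr hz.1 hx.1 hy.1 hyx).2 h)
        have h4 := P.card_pEl hx.1
        rw [← hKyx, (hty y hy hyT).2.2, pow_one, hKyx] at h4
        rw [← h4]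
        exact Nat.card_congr (Equiv.subtypeEquivRight fun w =>
          ⟨fun h => ⟨h.1.1, h.2⟩, fun h => ⟨⟨h.1, fun hT =>
            hx.2 ((P.T0_congr hz.1 hx.1 h.1.1 h.2).2 hT)⟩, h.2⟩⟩)) (fun y hy => by
        have h4 := P.card_ne_one hy.1.1
        rw [hKB y hy.1 hy.2] at h4
        rw [← h4]
        exact Nat.card_congr (Equiv.subtypeEquivRight fun x =>
          ⟨fun h => ⟨h.1.1, P.mem_symm hy.1.1 h.1.1 h.2⟩, fun h =>
            ⟨⟨h.1, fun hT => hy.2 ((P.T0_congr hz.1 hy.1.1 h.1 h.2).2 hT)⟩,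
              P.mem_symm h.1 hy.1.1 h.2⟩⟩))
    obtain ⟨κ, hκ⟩ := exists_classes {y : X | PEl p y ∧ ¬ P.T0 z y} (fun y hy g => by
        refine ⟨⟨fun h => hy.1.1 ?_, ?_⟩, fun h => hy.2 ((P.T0_conj g).1 h)⟩
        · have h4 : g * y * g⁻¹ = 1 := h
          rw [mul_inv_eq_one] at h4
          exact mul_eq_left.1 h4
        · obtain ⟨m, hm⟩ := hy.1.2
          exact ⟨m, by rw [conj_pow, hm, mul_one, mul_inv_cancel]⟩) (p * B) (fun y hy => by
        rw [(hty y hy.1 hy.2).1, hKB y hy.1 hy.2])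
    exact num_three hp hpB hAB hg hg0 hκ hdc hX0 hsum
  · have h4 : Nat.card {x : X // x ≠ 1 ∧ ¬ P.T0 z x} = 0 := by
      have : IsEmpty {x : X // x ≠ 1 ∧ ¬ P.T0 z x} := ⟨fun ⟨x, hx1, hxT⟩ => by
        obtain ⟨y, hy, hyx, hKyx⟩ := P.exists_pEl hx1
        exact hΩ ⟨y, hy, fun h => hxT ((P.T0_congr hz.1 hx1 hy.1 hyx).2 h)⟩⟩
      exact Nat.card_of_isEmpty
    rw [h4, hX0, Nat.add_zero] at hsum
    have h5 : n0 ∣ 1 := by
      have h6 : n0 ∣ n0 * (Nat.card (P.K z) - 1) + 1 := by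
        rw [hsum, hg, Nat.mul_assoc]
        exact Nat.dvd_mul_right _ _
      exact (Nat.dvd_add_right (Nat.dvd_mul_right _ _)).1 h6
    exact Nat.dvd_one.1 h5

/-- S12: S3 for a Sylow subgroup, S4; if `δ = 2` S10; else S11: `K z` is normal, so `c` is not in a
conjugate of `K z`; S7 and S8 give `|K c| ≤ p (p - 1)`, contradicting `ty_one_lower`. -/
theorem Sized.false [Finite X] [Fact p.Prime] (hs : Sized P a b k) : False := by
  have hp : p.Prime := Fact.out
  obtain ⟨z, c, hz, hzS, hS, hcS, hcz, hcard, hfac⟩ := hs.exists_center (default : Sylow p X)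
  obtain ⟨h2, hty⟩ := hs.type_center hz hfac
  rcases Nat.eq_or_lt_of_le h2 with h2 | h3
  · exact hs.two_false h2.symm
  · have hnorm := hs.three_normal h3 default hz hS hzS hcard hty
    have hc1 : c ≠ 1 := fun h => hcz (h ▸ (P.K z).one_mem)
    obtain ⟨n, hn⟩ := (default : Sylow p X).2 ⟨c, hcS⟩
    have hcp : PEl p c := ⟨hc1, n, by simpa [Subtype.ext_iff] using hn⟩
    have hT : ¬ P.T0 z c := by
      rintro ⟨g, hg⟩
      apply hcz
      have := hnorm g _ hg
      have h1 : g * (g⁻¹ * c * g) * g⁻¹ = c := by group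
      rwa [h1] at this
    obtain ⟨-, hf⟩ := hs.type_one default hz hS hzS hcp hT hcard
    have hle := hs.card_le_of_normal hz hcp (hS c hcS).symm hcz hnorm hf
    obtain ⟨i, hi1, hi2, hity, hif, -⟩ := hs.comp hc1
    rw [hf] at hif
    subst hif
    have hlow := ty_one_lower hp hs.ha hs.hab hs.hc hs.dvd_sub hity
    have h4 : p ^ 2 ≤ p ^ ((b - a).factorization p) := Nat.pow_le_pow_right hp.pos h2
    have h5 : p * (p - 1) ≤ p ^ 2 := by
      rw [pow_two]
      exact Nat.mul_le_mul_left _ (Nat.sub_le _ _)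
    have := hp.pos
    omega

end Pool.Agent.NCG
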